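import Mathlib
import Pool.Agent.helper9.S2.Reg
import Pool.Agent.helper68.S2.GB

/-!
# Bounds of the Galerkin approximations, uniform in the projection (module R1)
-/

set_option autoImplicit false

open MeasureTheory Metric Set Filter
open scoped ContDiff Topology

namespace Pool.Agent.helper68.S2

/-! ### Symmetric projections commuting with the rotation fields -/

section Proj

variable {P : SS →ₗ[ℝ] SS}

theorem P_Lap (hX : ∀ i f, P (X i f) = X i (P f)) (f : SS) : P (Lap f) = Lap (P f) := by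
  rw [Lap_eq, Lap_eq, map_add, map_add, hX, hX, hX, hX, hX, hX]

theorem P_Xw (hX : ∀ i f, P (X i f) = X i (P f)) (w : List (Fin 3)) (f : SS) :
    P (Xw w f) = Xw w (P f) := by
  induction w generalizing f with
  | nil => rfl
  | cons i w ih => rw [Xw_cons, Xw_cons, ih, hX]

theorem Mb_P (hs : ∀ f g, I (P f * g) = I (f * P g)) (hX : ∀ i f, P (X i f) = X i (P f)) (s : ℕ)
    (f g : SS) : Mb s (P f) g = Mb s f (P g) := by
  induction s generalizing f g with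
  | zero => exact hs f g
  | succ s ih =>
    rw [Mb_succ, Mb_succ]
    refine Finset.sum_congr rfl fun i _ => ?_
    rw [← hX, ih, hX]

theorem M_P_le (hs : ∀ f g, I (P f * g) = I (f * P g)) (hX : ∀ i f, P (X i f) = X i (P f))
    (hid : ∀ f, P (P f) = P f) (s : ℕ) (f : SS) : M s (P f) ≤ M s f := by
  have h1 : M s (P f) = Mb s f (P f) := by
    unfold M
    rw [Mb_P hs hX, hid]
  have h2 := (le_abs_self _).trans (Mb_le s f (P f))
  rw [← h1] at h2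
  have h3 := Real.mul_self_sqrt (M_nonneg s f)
  have h4 := Real.mul_self_sqrt (M_nonneg s (P f))
  have h5 := Real.sqrt_nonneg (M s f)
  have h6 := Real.sqrt_nonneg (M s (P f))
  nlinarith [sq_nonneg (√(M s f) - √(M s (P f)))]

theorem M_cont {J : Set ℝ} (k : ℕ) {g : ℝ → SS} (hg : CC J g) :
    ContinuousOn (fun t => M k (g t)) J := by
  induction k generalizing g with
  | zero => exact I_cont ((hg.mul hg) 0)
  | succ k ih =>
    simp only [M_succ]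
    exact continuousOn_finsetSum _ fun i _ => ih (hg.X i)

theorem cont_P (hs : ∀ f g, I (P f * g) = I (f * P g)) (hX : ∀ i f, P (X i f) = X i (P f))
    (hid : ∀ f, P (P f) = P f) {J : Set ℝ} {g : ℝ → SS} (hg : CC J g) :
    ContinuousOn (fun z : ℝ × Sph => P (g z.1) z.2) (J ×ˢ univ) := by
  rintro ⟨t, p⟩ ⟨ht, -⟩
  have ht : t ∈ J := ht
  have hgt : CC J fun s => g s - g t := hg.sub (CC.const (g t))
  have hN : ContinuousOn (fun s => √(M 0 (g s - g t)) + √(M 2 (g s - g t))) J :=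
    ((M_cont 0 hgt).sqrt).add ((M_cont 2 hgt).sqrt)
  have hN0 : √(M 0 (g t - g t)) + √(M 2 (g t - g t)) = 0 := by
    have e : ∀ k, M k (g t - g t) = 0 := by
      intro k
      rw [sub_self, ← zero_smul ℝ (0 : SS), M_smul]
      simp
    rw [e, e]
    simp
  have hfst : Tendsto (fun z : ℝ × Sph => z.1) (𝓝[J ×ˢ univ] (t, p)) (𝓝[J] t) := by
    apply tendsto_nhdsWithin_of_tendsto_nhds_of_eventually_within
    · exact (continuous_fst.tendsto (t, p)).mono_left nhdsWithin_le_nhds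
    · filter_upwards [self_mem_nhdsWithin] with z hz using hz.1
  have hNt : Tendsto (fun z : ℝ × Sph => √(M 0 (g z.1 - g t)) + √(M 2 (g z.1 - g t)))
      (𝓝[J ×ˢ univ] (t, p)) (𝓝 0) := by
    have h1 := (hN t ht).tendsto.comp hfst
    rw [hN0] at h1
    exact h1
  have h1 : Tendsto (fun z : ℝ × Sph => P (g z.1 - g t) z.2) (𝓝[J ×ˢ univ] (t, p)) (𝓝 0) := by
    apply squeeze_zero_norm _ hNt
    intro z
    rw [Real.norm_eq_abs]
    have h2 := supB (P (g z.1 - g t)) z.2 1 le_rfl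
    rw [one_mul, Nat.cast_one, one_mul, div_one, one_mul, ← M_zero, ← M_two] at h2
    refine h2.trans (add_le_add ?_ ?_)
    · exact Real.sqrt_le_sqrt (M_P_le hs hX hid 0 _)
    · exact Real.sqrt_le_sqrt (M_P_le hs hX hid 2 _)
  have h2 : Tendsto (fun z : ℝ × Sph => P (g t) z.2) (𝓝[J ×ˢ univ] (t, p)) (𝓝 (P (g t) p)) :=
    (((continuous_ss (P (g t))).comp continuous_snd).tendsto (t, p)).mono_left nhdsWithin_le_nhds
  have h3 := h1.add h2
  rw [zero_add] at h3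
  refine h3.congr fun z => ?_
  rw [map_sub, ss_sub]
  ring

theorem CC_P (hs : ∀ f g, I (P f * g) = I (f * P g)) (hX : ∀ i f, P (X i f) = X i (P f))
    (hid : ∀ f, P (P f) = P f) {J : Set ℝ} {g : ℝ → SS} (hg : CC J g) :
    CC J (fun t => P (g t)) := by
  apply CC.of_words
  intro w
  simp only [← P_Xw hX]
  exact cont_P hs hX hid (hg.Xw w)

end Proj

/-! ### Families bounded in the norms only -/

section Fam

variable {ι : Type*} {s : ℕ} {f g : ι → SS}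

theorem UB.cmp_of_NN {K : ℝ} (h : ∀ i, NN s (f i) ≤ K) {φ : ℝ → ℝ} (hφ : Nice φ) :
    UB s (fun i => cmp φ (f i)) := by
  obtain ⟨B, hB⟩ := comp_le s hφ K
  obtain ⟨L, hL⟩ := hφ.bdd
  exact UB.of_le (K₁ := L) (K₂ := B) (fun i p => by rw [hφ.cmp_apply]; exact hL _)
    fun i => hB _ (h i)

theorem GB.cmp_of {w : ι → Sph → ℝ} (h : ∀ i p, gp (f i) p ≤ w i p) {φ : ℝ → ℝ} (hφ : Nice φ) :
    GB w (fun i => cmp φ (f i)) := by
  obtain ⟨L, hL⟩ := hφ.bdd
  obtain ⟨N, hN⟩ := hφ.deriv.bdd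
  have hL0 : 0 ≤ L := (abs_nonneg _).trans (hL 0)
  refine ⟨L + N ^ 2, by positivity, fun i p => ⟨?_, ?_⟩⟩
  · rw [hφ.cmp_apply]
    have := hL (f i p)
    have h2 : 0 ≤ N ^ 2 := by positivity
    linarith
  · have h1 := gp_cmp_le hφ hN (f i) p
    have h2 := mul_le_mul_of_nonneg_left (h i p) (sq_nonneg N)
    have h3 := gp_nonneg (f i) p
    have h4 := h i p
    have h5 : 0 ≤ L * (1 + w i p) := mul_nonneg hL0 (by linarith)
    have h6 := sq_nonneg N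
    nlinarith

end Fam

/-! ### Nice functions and the coefficients -/

theorem Nice.exp_mul {θ : ℝ → ℝ} (h : Nice θ) (a : ℝ) : Nice fun y => Real.exp (a * θ y) :=
  h.comp (ψ := fun z => Real.exp (a * z)) (Real.contDiff_exp.comp (contDiff_const.mul contDiff_id))

theorem Nice.pow_two {χ : ℝ → ℝ} (h : Nice χ) : Nice fun y => χ y ^ 2 :=
  h.comp (ψ := fun z => z ^ 2) (contDiff_id.pow 2)

theorem Nice.int_exp {θ : ℝ → ℝ} (h : Nice θ) :
    ∃ m : ℝ, 0 < m ∧ ∀ u : SS, m ≤ I (cmp (fun y => Real.exp (2 * θ y)) u) := by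
  obtain ⟨C, hC⟩ := h.bdd
  refine ⟨Real.exp (-(2 * C)) * (4 * Real.pi), by positivity, fun u => ?_⟩
  rw [← I_const]
  apply I_mono
  intro p
  rw [ss_algebraMap, (h.exp_mul 2).cmp_apply]
  apply Real.exp_le_exp.mpr
  have := (abs_le.mp (hC (u p))).1
  linarith

/-- lower bound of the leading coefficient -/
theorem Gc_lower {χ θ : ℝ → ℝ} (hχ : Nice χ) (hθ : Nice θ) (hpos : ∃ c > 0, ∀ y, c ≤ χ y) :
    ∃ c₀, 0 < c₀ ∧ ∀ u F p, c₀ ≤ Gc χ θ u F p := by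
  obtain ⟨c, hc, hcχ⟩ := hpos
  obtain ⟨m, hm, hm'⟩ := hθ.int_exp
  obtain ⟨C, hC⟩ := hθ.bdd
  have hpi := Real.pi_pos
  refine ⟨m / (4 * Real.pi) * (c ^ 2 * Real.exp (-2 * C)), by positivity, fun u F p => ?_⟩
  unfold Gc
  rw [ss_smul, ss_mul, hχ.pow_two.cmp_apply, (hθ.exp_mul (-2)).cmp_apply]
  have h1 : m / (4 * Real.pi) ≤ I (cmp (fun y => Real.exp (2 * θ y)) u) / (4 * Real.pi) := by
    gcongr
    exact hm' u
  have h2 : c ^ 2 ≤ χ (F p) ^ 2 := pow_le_pow_left₀ hc.le (hcχ _) 2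
  have h3 : Real.exp (-2 * C) ≤ Real.exp (-2 * θ (u p)) := by
    apply Real.exp_le_exp.mpr
    have := (abs_le.mp (hC (u p))).2
    linarith
  have h0 : 0 ≤ I (cmp (fun y => Real.exp (2 * θ y)) u) / (4 * Real.pi) :=
    (show 0 ≤ m / (4 * Real.pi) by positivity).trans h1
  gcongr

section Coef

variable {ι : Type*} {χ θ : ℝ → ℝ} (hχ : Nice χ) (hθ : Nice θ) (u F : ι → SS)
include hχ hθ

theorem RB_e2 : RB fun i => I (cmp (fun y => Real.exp (2 * θ y)) (u i)) := by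
  obtain ⟨L, hL⟩ := (hθ.exp_mul 2).bdd
  refine ⟨L * (4 * Real.pi), fun i => abs_I_le fun p => ?_⟩
  rw [(hθ.exp_mul 2).cmp_apply]
  exact hL _

theorem RB_quot : RB fun i => 2 * (I (cmp χ (F i) * cmp (fun y => Real.exp (2 * θ y)) (u i)) /
    I (cmp (fun y => Real.exp (2 * θ y)) (u i))) := by
  obtain ⟨L, hL⟩ := (hθ.exp_mul 2).bdd
  obtain ⟨C, hC⟩ := hχ.bdd
  obtain ⟨m, hm, hm'⟩ := hθ.int_exp
  have hpi := Real.pi_pos
  refine RB.mul (RB.const 2) ⟨C * L * (4 * Real.pi) / m, fun i => ?_⟩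
  rw [abs_div]
  have h1 : |I (cmp χ (F i) * cmp (fun y => Real.exp (2 * θ y)) (u i))| ≤ C * L * (4 * Real.pi) := by
    apply abs_I_le
    intro p
    rw [ss_mul, hχ.cmp_apply, (hθ.exp_mul 2).cmp_apply, abs_mul]
    exact mul_le_mul (hC _) (hL _) (abs_nonneg _) ((abs_nonneg _).trans (hC 0))
  have h2 : m ≤ |I (cmp (fun y => Real.exp (2 * θ y)) (u i))| := (hm' _).trans (le_abs_self _)
  have h3 : 0 ≤ C * L * (4 * Real.pi) := (abs_nonneg _).trans h1
  gcongr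

theorem UB_Gc {s : ℕ} (hs : 1 ≤ s) {K : ℝ} (hu : ∀ i, NN s (u i) ≤ K) (hF : ∀ i, NN s (F i) ≤ K) :
    UB s fun i => Gc χ θ (u i) (F i) := by
  unfold Gc
  refine UB.smul ?_ ((UB.cmp_of_NN hF hχ.pow_two).mul hs (UB.cmp_of_NN hu (hθ.exp_mul (-2))))
  simp only [div_eq_mul_inv]
  exact (RB_e2 hχ hθ u).mul (RB.const _)

theorem UB_Bc {s : ℕ} {K : ℝ} (hF : ∀ i, NN s (F i) ≤ K) :
    UB s fun i => Bc χ θ (u i) (F i) := by
  unfold Bc
  exact (UB.smul (RB.const 2) (UB.cmp_of_NN hF hχ.pow_two)).sub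
    (UB.smul (RB_quot hχ hθ u F) (UB.cmp_of_NN hF hχ))

theorem GB_Gc (w : ι → Sph → ℝ) (hu : ∀ i p, gp (u i) p ≤ w i p) (hF : ∀ i p, gp (F i) p ≤ w i p) :
    GB w fun i => Gc χ θ (u i) (F i) := by
  have hw : ∀ i p, 0 ≤ w i p := fun i p => (gp_nonneg _ _).trans (hu i p)
  unfold Gc
  refine GB.smul hw ?_ (GB.mul hw (GB.cmp_of hF hχ.pow_two) (GB.cmp_of hu (hθ.exp_mul (-2))))
  simp only [div_eq_mul_inv]
  exact (RB_e2 hχ hθ u).mul (RB.const _)

theorem sup_Bc : ∃ K, 0 ≤ K ∧ ∀ i p, |Bc χ θ (u i) (F i) p| ≤ K := by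
  obtain ⟨C, hC⟩ := hχ.bdd
  obtain ⟨C2, hC2⟩ := hχ.pow_two.bdd
  obtain ⟨Q, hQ⟩ := RB_quot hχ hθ u F
  have hC0 : 0 ≤ C := (abs_nonneg _).trans (hC 0)
  have hC20 : 0 ≤ C2 := (abs_nonneg _).trans (hC2 0)
  refine ⟨2 * C2 + |Q| * C, by positivity, fun i p => ?_⟩
  unfold Bc
  rw [ss_sub, ss_smul, ss_smul, hχ.cmp_apply, hχ.pow_two.cmp_apply]
  refine (abs_sub _ _).trans ?_
  rw [abs_mul, abs_mul, abs_two]
  have h1 := hC2 (F i p)
  have h2 := hC (F i p)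
  have h3 := (hQ i).trans (le_abs_self Q)
  have h4 := mul_le_mul h3 h2 (abs_nonneg _) (abs_nonneg _)
  linarith

end Coef

/-! ### Points on Galerkin solutions -/

/-- a point on a solution of the projected system -/
structure GalPt (χ θ : ℝ → ℝ) (a b : SS) (T : ℝ) where
  P : SS →ₗ[ℝ] SS
  u : ℝ → SS
  F : ℝ → SS
  sym : ∀ f g, I (P f * g) = I (f * P g)
  cX : ∀ i f, P (X i f) = X i (P f)
  idem : ∀ f, P (P f) = P f
  u0 : u 0 = P a
  F0 : F 0 = P b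
  cu : CC (Icc 0 T) u
  cF : CC (Icc 0 T) F
  du : CD (Icc 0 T) u (fun t => F t - 1)
  dF : CD (Icc 0 T) F (fun t => P (Gc χ θ (u t) (F t) * Lap (F t) + Bc χ θ (u t) (F t)))
  inv : ∀ t ∈ Icc (0 : ℝ) T, P (F t) = F t
  t : ℝ
  ht : t ∈ Icc (0 : ℝ) T

namespace GalPt

variable {χ θ : ℝ → ℝ} {a b : SS} {T : ℝ}

/-- `u` at the point -/
def U (i : GalPt χ θ a b T) : SS := i.u i.t
/-- `F` at the point -/
def V' (i : GalPt χ θ a b T) : SS := i.F i.t
/-- the leading coefficient -/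
noncomputable def G (i : GalPt χ θ a b T) : SS := Gc χ θ i.U i.V'
/-- the lower order term -/
noncomputable def B (i : GalPt χ θ a b T) : SS := Bc χ θ i.U i.V'
/-- the right hand side before projection -/
noncomputable def W (i : GalPt χ θ a b T) : SS := i.G * Lap i.V' + i.B

/-- another point on the same line -/
def at' (i : GalPt χ θ a b T) (s : ℝ) (hs : s ∈ Icc (0 : ℝ) T) : GalPt χ θ a b T :=
  { i with t := s, ht := hs }

theorem cR (hχ : Nice χ) (hθ : Nice θ) (i : GalPt χ θ a b T) :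
    CC (Icc 0 T) fun t => Gc χ θ (i.u t) (i.F t) * Lap (i.F t) + Bc χ θ (i.u t) (i.F t) := by
  have hu : ∀ {φ : ℝ → ℝ}, Nice φ → CC (Icc 0 T) fun t => cmp φ (i.u t) := fun hφ =>
    CC.cmp isOpen_univ hφ.1.contDiffOn (fun _ _ _ => mem_univ _) i.cu
  have hF : ∀ {φ : ℝ → ℝ}, Nice φ → CC (Icc 0 T) fun t => cmp φ (i.F t) := fun hφ =>
    CC.cmp isOpen_univ hφ.1.contDiffOn (fun _ _ _ => mem_univ _) i.cF
  obtain ⟨m, hm, hm'⟩ := hθ.int_exp
  have hI : ContinuousOn (fun t => I (cmp (fun y => Real.exp (2 * θ y)) (i.u t))) (Icc 0 T) :=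
    I_cont ((hu (hθ.exp_mul 2)) 0)
  unfold Gc Bc
  refine ((CC.smul (hI.div_const _) ((hF hχ.pow_two).mul (hu (hθ.exp_mul (-2))))).mul
    i.cF.Lap).add ((CC.smul continuousOn_const (hF hχ.pow_two)).sub (CC.smul ?_ (hF hχ)))
  refine ContinuousOn.mul continuousOn_const (ContinuousOn.div ?_ hI fun t _ => ?_)
  · exact I_cont (((hF hχ).mul (hu (hθ.exp_mul 2))) 0)
  · exact (hm.trans_le (hm' _)).ne'

theorem dMF (hχ : Nice χ) (hθ : Nice θ) (i : GalPt χ θ a b T) (s : ℕ) {t : ℝ}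
    (ht : t ∈ Icc (0 : ℝ) T) :
    HasDerivWithinAt (fun t => M s (i.F t)) (2 * Mb s (i.at' t ht).V' (i.at' t ht).W)
      (Icc 0 T) t := by
  have h := dM (convex_Icc 0 T) s i.cF (CC_P i.sym i.cX i.idem (i.cR hχ hθ)) i.dF ht
  refine h.congr_deriv ?_
  rw [← Mb_P i.sym i.cX, i.inv t ht]
  rfl

theorem dMu (i : GalPt χ θ a b T) (s : ℕ) {t : ℝ} (ht : t ∈ Icc (0 : ℝ) T) :
    HasDerivWithinAt (fun t => M s (i.u t)) (2 * Mb s (i.u t) (i.F t - 1)) (Icc 0 T) t :=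
  dM (convex_Icc 0 T) s i.cu (i.cF.sub (CC.const 1)) i.du ht

theorem MF0 (i : GalPt χ θ a b T) (s : ℕ) : M s (i.F 0) ≤ M s b := by
  rw [i.F0]
  exact M_P_le i.sym i.cX i.idem s b

theorem Mu0 (i : GalPt χ θ a b T) (s : ℕ) : M s (i.u 0) ≤ M s a := by
  rw [i.u0]
  exact M_P_le i.sym i.cX i.idem s a

end GalPt

/-! ### The induction -/

/-- the induction statement -/
def GReg (χ θ : ℝ → ℝ) (a b : SS) (T : ℝ) (s : ℕ) : Prop :=
  ∃ K c₁ C₁ : ℝ, 0 ≤ K ∧ 0 < c₁ ∧ ∀ i : GalPt χ θ a b T,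
    NN s i.V' ≤ K ∧ NN (s + 1) i.U ≤ K ∧ 2 * Mb s i.V' i.W ≤ -c₁ * M (s + 1) i.V' + C₁

theorem two_Mb_sub_one_le (s : ℕ) (u F : SS) {c : ℝ} (hc : 0 < c) :
    2 * Mb s u (F - 1) ≤ 4 * c * M s F + 4 * c * M s 1 + 1 / (2 * c) * M s u := by
  have h1 := (le_abs_self _).trans (two_Mb_le s (F - 1) u hc)
  rw [Mb_comm] at h1
  have h2 := M_add_le s F (-1)
  rw [← sub_eq_add_neg] at h2
  have h3 : M s (-1 : SS) = M s 1 := by
    have := M_smul s (-1) (1 : SS)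
    rw [neg_one_smul] at this
    rw [this]
    ring
  rw [h3] at h2
  have h4 := mul_le_mul_of_nonneg_left h2 hc.le
  have h5 : 1 / (2 * c) * M s u = 2 * (1 / (4 * c) * M s u) := by
    field_simp
    ring
  rw [h5]
  linarith

theorem greg_one {χ θ : ℝ → ℝ} (hχ : Nice χ) (hθ : Nice θ) (hpos : ∃ c > 0, ∀ y, c ≤ χ y)
    (a b : SS) {T : ℝ} (hT : 0 ≤ T) : GReg χ θ a b T 1 := by
  obtain ⟨c₀, hc₀, hG⟩ := Gc_lower hχ hθ hpos
  obtain ⟨KB, hKB0, hKB⟩ := sup_Bc hχ hθ (ι := GalPt χ θ a b T) (fun i => i.U) (fun i => i.V')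
  obtain ⟨KG, hKG0, hKG⟩ := GB_Gc hχ hθ (ι := GalPt χ θ a b T) (fun i => i.U) (fun i => i.V')
    (fun i p => gp i.U p + gp i.V' p) (fun i p => le_add_of_nonneg_right (gp_nonneg _ _))
    (fun i p => le_add_of_nonneg_left (gp_nonneg _ _))
  have hpi := Real.pi_pos
  set K : ℝ := KB ^ 2 * (4 * Real.pi) with hK
  have hK0 : 0 ≤ K := by positivity
  have hB : ∀ i : GalPt χ θ a b T, M 0 i.B ≤ K := fun i => M_zero_le fun p => hKB i p
  have hD : ∀ i : GalPt χ θ a b T, 2 * Mb 1 i.V' i.W ≤ -c₀ * M 2 i.V' + K / c₀ := by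
    intro i
    rw [Mb_succ', Mb_zero]
    unfold GalPt.W
    rw [mul_add, map_add]
    have h1 : c₀ * M 2 i.V' ≤ I (Lap i.V' * (i.G * Lap i.V')) := by
      rw [M_two, ← smul_eq_mul, ← map_smul]
      apply I_mono
      intro p
      rw [ss_smul, ss_mul, ss_mul, ss_mul]
      have h9 : c₀ ≤ i.G p := hG _ _ p
      have := mul_le_mul_of_nonneg_right h9 (mul_self_nonneg (Lap i.V' p))
      linarith
    have h2 := (abs_le.mp (two_Mb_le 0 (Lap i.V') i.B (c := c₀ / 2) (by positivity))).1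
    rw [Mb_zero, M_Lap 0 i.V', Nat.zero_add] at h2
    have h3 : 1 / (4 * (c₀ / 2)) * M 0 i.B ≤ K / (2 * c₀) := by
      have e : 1 / (4 * (c₀ / 2)) = 1 / (2 * c₀) := by
        congr 1
        ring
      rw [e, div_mul_eq_mul_div, one_mul]
      gcongr
      exact hB i
    have h4 : K / c₀ = 2 * (K / (2 * c₀)) := by
      field_simp
    rw [h4]
    linarith
  -- level zero
  have hW : ∀ i : GalPt χ θ a b T, M 0 i.W ≤ 2 * KG ^ 2 * M 2 i.V' + 2 * K := by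
    intro i
    unfold GalPt.W
    have h1 := M_add_le 0 (i.G * Lap i.V') i.B
    have h2 : M 0 (i.G * Lap i.V') ≤ KG ^ 2 * M 2 i.V' := by
      have e : KG ^ 2 * I (Lap i.V' * Lap i.V') = I (KG ^ 2 • (Lap i.V' * Lap i.V')) := by
        rw [map_smul, smul_eq_mul]
      rw [M_two, M_zero, e]
      apply I_mono
      intro p
      rw [ss_smul, ss_mul, ss_mul, ss_mul]
      have h3 : |i.G p| ≤ KG := (hKG i p).1
      have h4 : i.G p * i.G p ≤ KG ^ 2 := by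
        rw [← abs_mul_abs_self, ← sq]
        exact pow_le_pow_left₀ (abs_nonneg _) h3 2
      have h5 := mul_le_mul_of_nonneg_right h4 (mul_self_nonneg (Lap i.V' p))
      linarith
    have h3 := hB i
    linarith
  have hD0 : ∀ i : GalPt χ θ a b T, 2 * Mb 0 i.V' i.W ≤
      4 * KG ^ 2 * M 2 i.V' + 4 * K + M 0 i.V' := by
    intro i
    have h1 := (le_abs_self _).trans (two_Mb_le 0 i.W i.V' (c := 1) one_pos)
    rw [Mb_comm] at h1
    have h2 := hW i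
    have h3 := M_nonneg 0 i.V'
    linarith
  set β : ℝ := (4 * KG ^ 2 + 4) / c₀ + 1 with hβ
  have hβ1 : 1 ≤ β := by
    have : 0 ≤ (4 * KG ^ 2 + 4) / c₀ := by positivity
    linarith
  set C : ℝ := 4 * K + β * (K / c₀) + 4 * NN 2 1 + 5 with hC
  have hN1 := NN_nonneg 2 (1 : SS)
  have hC0 : 0 ≤ C := by positivity
  set Y : ℝ := M 0 b + β * M 1 b + (M 0 a + M 1 a + M 2 a) with hY
  have hY0 : 0 ≤ Y := by
    have := M_nonneg 0 b
    have := M_nonneg 1 b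
    have := M_nonneg 0 a
    have := M_nonneg 1 a
    have := M_nonneg 2 a
    positivity
  have key : ∀ i : GalPt χ θ a b T, M 0 i.V' + β * M 1 i.V' + (M 0 i.U + M 1 i.U + M 2 i.U) ≤
      (1 + Y) * Real.exp (C * T) := by
    intro i
    have h0 : (0 : ℝ) ∈ Icc (0 : ℝ) T := ⟨le_rfl, hT⟩
    have h1 := ode_growth (T := T) hC0
      (f := fun t => M 0 (i.F t) + β * M 1 (i.F t) + (M 0 (i.u t) + M 1 (i.u t) + M 2 (i.u t)))
      (f' := fun t => 2 * Mb 0 (i.F t) (Gc χ θ (i.u t) (i.F t) * Lap (i.F t) +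
          Bc χ θ (i.u t) (i.F t)) + β * (2 * Mb 1 (i.F t) (Gc χ θ (i.u t) (i.F t) *
          Lap (i.F t) + Bc χ θ (i.u t) (i.F t))) + (2 * Mb 0 (i.u t) (i.F t - 1) +
          2 * Mb 1 (i.u t) (i.F t - 1) + 2 * Mb 2 (i.u t) (i.F t - 1)))
      (fun t ht => ((i.dMF hχ hθ 0 ht).add ((i.dMF hχ hθ 1 ht).const_mul β)).add
        (((i.dMu 0 ht).add (i.dMu 1 ht)).add (i.dMu 2 ht))) ?_ ?_ i.t i.ht
    · refine h1.trans ?_
      have h2 := i.MF0 0
      have h3 := i.MF0 1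
      have h4 := i.Mu0 0
      have h5 := i.Mu0 1
      have h6 := i.Mu0 2
      have h7 : β * M 1 (i.F 0) ≤ β * M 1 b := mul_le_mul_of_nonneg_left h3 (by linarith)
      apply mul_le_mul_of_nonneg_right _ (Real.exp_pos _).le
      simp only [hY]
      linarith
    · have h2 := M_nonneg 0 (i.F 0)
      have h3 := M_nonneg 1 (i.F 0)
      have h4 := M_nonneg 0 (i.u 0)
      have h5 := M_nonneg 1 (i.u 0)
      have h6 := M_nonneg 2 (i.u 0)
      positivity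
    · intro t ht
      have h2 := hD0 (i.at' t ht)
      have h3 := hD (i.at' t ht)
      change 2 * Mb 0 (i.F t) (Gc χ θ (i.u t) (i.F t) * Lap (i.F t) + Bc χ θ (i.u t) (i.F t)) ≤
        4 * KG ^ 2 * M 2 (i.F t) + 4 * K + M 0 (i.F t) at h2
      change 2 * Mb 1 (i.F t) (Gc χ θ (i.u t) (i.F t) * Lap (i.F t) + Bc χ θ (i.u t) (i.F t)) ≤
        -c₀ * M 2 (i.F t) + K / c₀ at h3
      have h4 := two_Mb_sub_one_le 0 (i.u t) (i.F t) (c := 1) one_pos
      have h5 := two_Mb_sub_one_le 1 (i.u t) (i.F t) (c := 1) one_pos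
      have h6 := two_Mb_sub_one_le 2 (i.u t) (i.F t) (c := 1) one_pos
      have m0 := M_nonneg 0 (i.F t)
      have m1 := M_nonneg 1 (i.F t)
      have m2 := M_nonneg 2 (i.F t)
      have n0 := M_nonneg 0 (i.u t)
      have n1 := M_nonneg 1 (i.u t)
      have n2 := M_nonneg 2 (i.u t)
      have e1 : NN 2 (1 : SS) = M 0 1 + M 1 1 + M 2 1 := NN_two 1
      have h7 := mul_le_mul_of_nonneg_left h3 (show 0 ≤ β by linarith)
      have h8 : β * (-c₀ * M 2 (i.F t) + K / c₀) ≤ -(4 * KG ^ 2 + 4) * M 2 (i.F t) +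
          β * (K / c₀) := by
        have e2 : β * c₀ = 4 * KG ^ 2 + 4 + c₀ := by
          rw [hβ]
          field_simp
        have e3 : β * (-c₀ * M 2 (i.F t)) = -(β * c₀) * M 2 (i.F t) := by ring
        rw [mul_add, e3, e2]
        nlinarith
      have h9 : 0 ≤ β * M 1 (i.F t) := by positivity
      have hE0 : 0 ≤ M 0 (i.F t) + β * M 1 (i.F t) +
        (M 0 (i.u t) + M 1 (i.u t) + M 2 (i.u t)) := by positivity
      have h10 : M 1 (i.F t) ≤ β * M 1 (i.F t) := by nlinarith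
      have h11 : 4 * K + β * (K / c₀) + 4 * NN 2 1 + 5 * (M 0 (i.F t) + β * M 1 (i.F t) +
          (M 0 (i.u t) + M 1 (i.u t) + M 2 (i.u t))) ≤
          C * (1 + (M 0 (i.F t) + β * M 1 (i.F t) +
          (M 0 (i.u t) + M 1 (i.u t) + M 2 (i.u t)))) := by
        have h12 : 0 ≤ 4 * K + β * (K / c₀) + 4 * NN 2 1 := by positivity
        rw [hC]
        nlinarith
      refine le_trans ?_ h11
      rw [e1]
      linarith
  refine ⟨(1 + Y) * Real.exp (C * T), c₀, K / c₀, by positivity, hc₀, fun i => ⟨?_, ?_, hD i⟩⟩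
  · have h1 := key i
    rw [NN_one]
    have m1 := M_nonneg 1 i.V'
    have n0 := M_nonneg 0 i.U
    have n1 := M_nonneg 1 i.U
    have n2 := M_nonneg 2 i.U
    nlinarith
  · have h1 := key i
    rw [NN_two]
    have m0 := M_nonneg 0 i.V'
    have m1 := M_nonneg 1 i.V'
    have : 0 ≤ β * M 1 i.V' := by positivity
    linarith

theorem greg_step {χ θ : ℝ → ℝ} (hχ : Nice χ) (hθ : Nice θ) (hpos : ∃ c > 0, ∀ y, c ≤ χ y)
    (a b : SS) {T : ℝ} (hT : 0 ≤ T) {s : ℕ} (hs : 1 ≤ s) (h : GReg χ θ a b T s) :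
    GReg χ θ a b T (s + 1) := by
  obtain ⟨K₀, c₁, C₁, hK₀, hc₁, hR⟩ := h
  obtain ⟨c₀, hc₀, hG⟩ := Gc_lower hχ hθ hpos
  obtain ⟨KG, hKG0, hKG⟩ := (UB_Gc hχ hθ (ι := GalPt χ θ a b T) (fun i => i.U) (fun i => i.V')
    hs (fun i => (NN_mono (Nat.le_succ s) _).trans (hR i).2.1) (fun i => (hR i).1)).nonneg
  obtain ⟨KB, hKB0, hKB⟩ := (UB_Bc hχ hθ (ι := GalPt χ θ a b T) (fun i => i.U) (fun i => i.V')
    (fun i => (hR i).1)).nonneg
  obtain ⟨q, hq0, hq⟩ := GB_Gc hχ hθ (ι := GalPt χ θ a b T) (fun i => i.U) (fun i => i.V')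
    (fun i p => gp i.U p + gp i.V' p) (fun i p => le_add_of_nonneg_right (gp_nonneg _ _))
    (fun i p => le_add_of_nonneg_left (gp_nonneg _ _))
  set K : ℝ := K₀ + KG + KB with hK
  obtain ⟨C, hC0, hC⟩ := step_ineq s hs c₀ K (q * (1 + 96 * K₀ + 48 * √K₀)) hc₀
  have hE : ∀ i : GalPt χ θ a b T, 2 * Mb (s + 1) i.V' i.W ≤ -(c₀ / 2) * M (s + 2) i.V' +
      C * ((1 + √(M 3 i.U)) * (1 + M (s + 1) i.V') + (1 + M (s + 1) i.V') ^ 2) := by
    intro i
    obtain ⟨hF, hU, -⟩ := hR i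
    have hM1 : M 1 i.V' ≤ K₀ := (M_le_NN hs _).trans hF
    have hM2 : M 1 i.U ≤ K₀ := (M_le_NN (by omega) _).trans hU
    refine hC i.V' i.G i.B (hG _ _) (hF.trans (by linarith))
      ((hKG i).2.trans (by linarith)) ((hKB i).2.trans (by linarith)) (√(M 3 i.U))
      (Real.sqrt_nonneg _) (fun p => ?_)
    refine ((hq i p).2).trans ?_
    rw [mul_assoc]
    apply mul_le_mul_of_nonneg_left _ hq0
    have h2 := gp_le i.V' p
    have h2' := gp_le i.U p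
    have h3 := Real.sqrt_le_sqrt hM1
    have h3' := Real.sqrt_le_sqrt hM2
    have h4 := Real.sqrt_nonneg (M 3 i.V')
    have h4' := Real.sqrt_nonneg (M 3 i.U)
    have h5 := Real.sqrt_nonneg K₀
    have h6 : √(M 1 i.V') * √(M 3 i.V') ≤ √K₀ * √(M 3 i.V') := mul_le_mul_of_nonneg_right h3 h4
    have h6' : √(M 1 i.U) * √(M 3 i.U) ≤ √K₀ * √(M 3 i.U) := mul_le_mul_of_nonneg_right h3' h4'
    have h7 : 0 ≤ K₀ * √(M 3 i.V') := mul_nonneg hK₀ h4
    have h7' : 0 ≤ K₀ * √(M 3 i.U) := mul_nonneg hK₀ h4'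
    nlinarith
  -- the differential inequality for `Z`
  set A : ℝ := C * (3 + K₀) + (c₀ / 2) * M (s + 2) 1 + 4 / c₀ with hA
  have hA1 : 0 ≤ C * (3 + K₀) := by positivity
  have hE2 : ∀ i : GalPt χ θ a b T, 2 * Mb (s + 1) i.V' i.W ≤ -(c₀ / 2) * M (s + 2) i.V' +
      C * (3 + K₀) * ((1 + (M (s + 1) i.V' + M (s + 2) i.U)) * (1 + M (s + 1) i.V')) := by
    intro i
    refine (hE i).trans ?_
    have hy := M_nonneg (s + 1) i.V'
    have hz := M_nonneg (s + 2) i.U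
    have h1 : 1 + √(M 3 i.U) ≤ (2 + K₀) * (1 + (M (s + 1) i.V' + M (s + 2) i.U)) := by
      have h0 : √(M 3 i.U) ≤ 1 + M 3 i.U := by
        rw [Real.sqrt_le_left (by have := M_nonneg 3 i.U; linarith)]
        nlinarith [M_nonneg 3 i.U]
      rcases Nat.lt_or_ge s 2 with h | h
      · have hs1 : s = 1 := by omega
        subst hs1
        nlinarith [mul_nonneg hK₀ hy, mul_nonneg hK₀ hz]
      · have h3 : M 3 i.U ≤ K₀ := (M_le_NN (by omega) _).trans (hR i).2.1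
        nlinarith [mul_nonneg hK₀ hy, mul_nonneg hK₀ hz]
    have h2 : (1 + √(M 3 i.U)) * (1 + M (s + 1) i.V') ≤
        (2 + K₀) * (1 + (M (s + 1) i.V' + M (s + 2) i.U)) * (1 + M (s + 1) i.V') :=
      mul_le_mul_of_nonneg_right h1 (by linarith)
    have h3 : (1 + M (s + 1) i.V') ^ 2 ≤
        (1 + (M (s + 1) i.V' + M (s + 2) i.U)) * (1 + M (s + 1) i.V') := by
      rw [sq]
      exact mul_le_mul_of_nonneg_right (by linarith) (by linarith)
    have h4 := mul_le_mul_of_nonneg_left (add_le_add h2 h3) hC0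
    refine (add_le_add_right h4 _).trans (le_of_eq ?_)
    ring
  have hE3 : ∀ i : GalPt χ θ a b T, 2 * Mb (s + 1) i.V' i.W + 2 * Mb (s + 2) i.U (i.V' - 1) ≤
      A * ((1 + (M (s + 1) i.V' + M (s + 2) i.U)) * (1 + M (s + 1) i.V')) := by
    intro i
    have h1 := hE2 i
    have h2 := two_Mb_sub_one_le (s + 2) i.U i.V' (c := c₀ / 8) (by positivity)
    have hy := M_nonneg (s + 1) i.V'
    have hz := M_nonneg (s + 2) i.U
    have hm := M_nonneg (s + 2) (1 : SS)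
    have e1 : 1 / (2 * (c₀ / 8)) = 4 / c₀ := by
      field_simp
      norm_num
    rw [e1] at h2
    have h3 : 1 ≤ (1 + (M (s + 1) i.V' + M (s + 2) i.U)) * (1 + M (s + 1) i.V') := by
      nlinarith [mul_nonneg hy hz]
    have h4 : M (s + 2) i.U ≤ (1 + (M (s + 1) i.V' + M (s + 2) i.U)) * (1 + M (s + 1) i.V') := by
      nlinarith [mul_nonneg hy hz]
    have h5 := mul_le_mul_of_nonneg_left h3 (show 0 ≤ (c₀ / 2) * M (s + 2) 1 by positivity)
    have h6 := mul_le_mul_of_nonneg_left h4 (show 0 ≤ 4 / c₀ by positivity)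
    rw [hA]
    linarith
  obtain ⟨L, hL⟩ := lyap2 c₁ C₁ A K₀ (M (s + 1) b + M (s + 2) a) T hc₁ hT
  have hZ : ∀ i : GalPt χ θ a b T, M (s + 1) i.V' + M (s + 2) i.U ≤ L := by
    intro i
    refine hL (fun t => M s (i.F t)) (fun t => 2 * Mb s (i.F t) (Gc χ θ (i.u t) (i.F t) *
        Lap (i.F t) + Bc χ θ (i.u t) (i.F t))) (fun t => M (s + 1) (i.F t) + M (s + 2) (i.u t))
      (fun t => 2 * Mb (s + 1) (i.F t) (Gc χ θ (i.u t) (i.F t) * Lap (i.F t) +
        Bc χ θ (i.u t) (i.F t)) + 2 * Mb (s + 2) (i.u t) (i.F t - 1))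
      (fun t => M (s + 1) (i.F t))
      (fun t ht => i.dMF hχ hθ s ht) (fun t ht => (i.dMF hχ hθ (s + 1) ht).add (i.dMu (s + 2) ht))
      (fun t ht => ⟨M_nonneg _ _, (M_le_NN le_rfl _).trans (hR (i.at' t ht)).1,
        add_nonneg (M_nonneg _ _) (M_nonneg _ _), M_nonneg _ _⟩)
      (fun t ht => (hR (i.at' t ht)).2.2) (fun t ht => hE3 (i.at' t ht))
      (add_le_add (i.MF0 _) (i.Mu0 _)) i.t i.ht
  have hL0 : ∀ i : GalPt χ θ a b T, M (s + 1) i.V' ≤ |L| ∧ M (s + 2) i.U ≤ |L| := by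
    intro i
    have h1 := (hZ i).trans (le_abs_self L)
    have h2 := M_nonneg (s + 1) i.V'
    have h3 := M_nonneg (s + 2) i.U
    exact ⟨by linarith, by linarith⟩
  refine ⟨K₀ + |L|, c₀ / 2, C * (3 + K₀) * ((1 + |L|) * (1 + |L|)), by positivity,
    by positivity, fun i => ⟨?_, ?_, ?_⟩⟩
  · rw [NN_succ_right]
    exact add_le_add (hR i).1 (hL0 i).1
  · rw [NN_succ_right (s + 1)]
    exact add_le_add (hR i).2.1 (hL0 i).2
  · refine (hE2 i).trans ?_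
    have h1 := (hZ i).trans (le_abs_self L)
    have h2 := M_nonneg (s + 1) i.V'
    have h3 := M_nonneg (s + 2) i.U
    have h4 : (1 + (M (s + 1) i.V' + M (s + 2) i.U)) * (1 + M (s + 1) i.V') ≤
        (1 + |L|) * (1 + |L|) :=
      mul_le_mul (by linarith) (by linarith [(hL0 i).1]) (by linarith) (by positivity)
    have h5 := mul_le_mul_of_nonneg_left h4 hA1
    linarith

theorem greg_all {χ θ : ℝ → ℝ} (hχ : Nice χ) (hθ : Nice θ) (hpos : ∃ c > 0, ∀ y, c ≤ χ y)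
    (a b : SS) {T : ℝ} (hT : 0 ≤ T) (s : ℕ) (hs : 1 ≤ s) : GReg χ θ a b T s := by
  induction s, hs using Nat.le_induction with
  | base => exact greg_one hχ hθ hpos a b hT
  | succ s hs ih => exact greg_step hχ hθ hpos a b hT hs ih

/-- **Uniform bounds for the projected system.** -/
theorem galerkin_bounds {A : ℝ} (_hA : SupB A) {χ θ : ℝ → ℝ} (hχ : Nice χ) (hθ : Nice θ)
    (hpos : ∃ c > 0, ∀ y, c ≤ χ y) (a b : SS) (T : ℝ) (s : ℕ) :
    ∃ B, ∀ (P : SS →ₗ[ℝ] SS) (u F : ℝ → SS), (∀ f g, I (P f * g) = I (f * P g)) →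
      (∀ i f, P (X i f) = X i (P f)) → (∀ f, P (P f) = P f) → P 1 = 1 → u 0 = P a → F 0 = P b →
      CC (Icc 0 T) u → CC (Icc 0 T) F → CD (Icc 0 T) u (fun t => F t - 1) →
      CD (Icc 0 T) F (fun t => P (Gc χ θ (u t) (F t) * Lap (F t) + Bc χ θ (u t) (F t))) →
      (∀ t ∈ Icc (0 : ℝ) T, P (u t) = u t ∧ P (F t) = F t) →
      ∀ t ∈ Icc (0 : ℝ) T, NN s (u t) ≤ B ∧ NN s (F t) ≤ B := by
  rcases lt_or_ge T 0 with hT | hT
  · refine ⟨0, fun P u F _ _ _ _ _ _ _ _ _ _ _ t ht => ?_⟩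
    exact absurd (ht.1.trans ht.2) (not_le.2 hT)
  · obtain ⟨K, c₁, C₁, -, -, h⟩ := greg_all hχ hθ hpos a b hT (s + 1) (by omega)
    refine ⟨K, fun P u F h1 h2 h3 _ h5 h6 h7 h8 h9 h10 h11 t ht => ?_⟩
    obtain ⟨hF, hU, -⟩ := h ⟨P, u, F, h1, h2, h3, h5, h6, h7, h8, h9, h10,
      fun t ht => (h11 t ht).2, t, ht⟩
    exact ⟨(NN_mono (by omega) _).trans hU, (NN_mono (by omega) _).trans hF⟩

end Pool.Agent.helper68.S2
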