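import Mathlib

/-!
# Global solutions of ordinary differential equations with linear growth
-/

set_option autoImplicit false

open Metric Set Filter
open scoped Topology NNReal

namespace Pool.Agent.helper68.S2

/-- coordinatewise truncation -/
noncomputable def clampR {ι : Type*} (R : ℝ) (x : ι → ℝ) : ι → ℝ := fun i => max (-R) (min R (x i))

theorem clampR_lip {ι : Type*} [Fintype ι] (R : ℝ) :
    LipschitzWith 1 (clampR R : (ι → ℝ) → ι → ℝ) := by
  apply LipschitzWith.of_dist_le_mul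
  intro x y
  rw [NNReal.coe_one, one_mul, dist_pi_le_iff dist_nonneg]
  intro i
  have h1 : LipschitzWith 1 (fun z : ℝ => max (-R) (min R z)) :=
    (LipschitzWith.id.const_min R).const_max (-R)
  have h2 := h1.dist_le_mul (x i) (y i)
  rw [NNReal.coe_one, one_mul] at h2
  exact h2.trans (dist_le_pi_dist x y i)

theorem clampR_norm_le {ι : Type*} [Fintype ι] {R : ℝ} (hR : 0 ≤ R) (x : ι → ℝ) :
    ‖clampR R x‖ ≤ R := by
  rw [pi_norm_le_iff_of_nonneg hR]
  intro i
  rw [Real.norm_eq_abs, abs_le]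
  unfold clampR
  refine ⟨le_max_left _ _, max_le (by linarith) (min_le_left _ _)⟩

theorem clampR_norm_le' {ι : Type*} [Fintype ι] {R : ℝ} (hR : 0 ≤ R) (x : ι → ℝ) :
    ‖clampR R x‖ ≤ ‖x‖ := by
  rw [pi_norm_le_iff_of_nonneg (norm_nonneg x)]
  intro i
  refine le_trans ?_ (norm_le_pi_norm x i)
  rw [Real.norm_eq_abs, Real.norm_eq_abs, abs_le]
  unfold clampR
  constructor
  · rcases le_total R (x i) with h | h
    · rw [min_eq_left h]
      exact le_max_of_le_right (by linarith [abs_nonneg (x i)])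
    · rw [min_eq_right h]
      exact le_max_of_le_right (neg_abs_le (x i))
  · apply max_le
    · linarith [abs_nonneg (x i)]
    · exact (min_le_right _ _).trans (le_abs_self (x i))

theorem clampR_eq {ι : Type*} [Fintype ι] {R : ℝ} (x : ι → ℝ) (h : ‖x‖ ≤ R) :
    clampR R x = x := by
  funext i
  have h1 := (norm_le_pi_norm x i).trans h
  rw [Real.norm_eq_abs, abs_le] at h1
  unfold clampR
  rw [min_eq_right h1.2, max_eq_right h1.1]

/-- global existence for a locally Lipschitz vector field with linear growth -/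
theorem exists_global_ode {ι : Type*} [Fintype ι] (v : (ι → ℝ) → ι → ℝ)
    (hv : LocallyLipschitz v) (A : ℝ) (hA : ∀ x, ‖v x‖ ≤ A * (1 + ‖x‖)) (x₀ : ι → ℝ) (T : ℝ)
    (hT : 0 < T) :
    ∃ x : ℝ → ι → ℝ, x 0 = x₀ ∧ ∀ t ∈ Icc 0 T, HasDerivWithinAt x (v (x t)) (Icc 0 T) t := by
  have hA0 : 0 ≤ A := by
    have := (norm_nonneg _).trans (hA 0)
    rwa [norm_zero, add_zero, mul_one] at this
  obtain ⟨R, hRdef⟩ : ∃ R, R = gronwallBound ‖x₀‖ A A T := ⟨_, rfl⟩
  have hmono : Monotone (gronwallBound ‖x₀‖ A A) := gronwallBound_mono (norm_nonneg _) hA0 hA0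
  have hR : 0 ≤ R := by
    have := hmono hT.le
    rw [gronwallBound_x0] at this
    rw [hRdef]
    exact (norm_nonneg _).trans this
  obtain ⟨K, hK⟩ : ∃ K, LipschitzOnWith K v (closedBall 0 R) :=
    LocallyLipschitzOn.exists_lipschitzOnWith_of_compact (isCompact_closedBall _ _)
      hv.locallyLipschitzOn
  have hK2 : LipschitzWith (K * 1) (v ∘ clampR R) := by
    have h1 : LipschitzOnWith (K * 1) (v ∘ clampR R) univ := by
      apply hK.comp (clampR_lip R).lipschitzOnWith
      intro x _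
      rw [mem_closedBall_zero_iff]
      exact clampR_norm_le hR x
    exact lipschitzOnWith_univ.mp h1
  have hL : ∀ x, ‖(v ∘ clampR R) x‖ ≤ A * (1 + R) := by
    intro x
    refine (hA _).trans ?_
    have := clampR_norm_le hR x
    gcongr
  have hAR : 0 ≤ A * (1 + R) := by positivity
  obtain ⟨L, hLdef⟩ : ∃ L : ℝ≥0, (L : ℝ) = A * (1 + R) := ⟨⟨_, hAR⟩, rfl⟩
  obtain ⟨T', hT'def⟩ : ∃ T' : ℝ≥0, (T' : ℝ) = T := ⟨⟨T, hT.le⟩, rfl⟩
  have h0 : (0 : ℝ) ∈ Icc 0 T := ⟨le_rfl, hT.le⟩
  have hPL : IsPicardLindelof (fun _ : ℝ => v ∘ clampR R) (⟨0, h0⟩ : Icc 0 T) x₀ (L * T') 0 L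
      (K * 1) := by
    apply IsPicardLindelof.of_time_independent
    · intro x _
      rw [hLdef]
      exact hL x
    · exact hK2.lipschitzOnWith
    · push_cast
      rw [hT'def, sub_zero, sub_zero, max_eq_left hT.le, sub_zero]
  obtain ⟨α, hα0, hα⟩ := hPL.exists_eq_forall_mem_Icc_hasDerivWithinAt₀
  have hα0 : α 0 = x₀ := hα0
  have hcont : ContinuousOn α (Icc 0 T) := fun t ht => (hα t ht).continuousWithinAt
  have hright : ∀ t ∈ Ico 0 T, HasDerivWithinAt α ((v ∘ clampR R) (α t)) (Ici t) t := by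
    intro t ht
    have h1 := hα t ⟨ht.1, ht.2.le⟩
    have h2 : Icc t T ⊆ Icc 0 T := Icc_subset_Icc_left ht.1
    exact (h1.mono h2).mono_of_mem_nhdsWithin (Icc_mem_nhdsGE ht.2)
  have hb : ∀ t ∈ Icc 0 T, ‖α t‖ ≤ gronwallBound ‖x₀‖ A A (t - 0) := by
    apply norm_le_gronwallBound_of_norm_deriv_right_le hcont hright
    · rw [hα0]
    · intro t _
      refine (hA _).trans ?_
      have := clampR_norm_le' hR (α t)
      have h3 : A * (1 + ‖clampR R (α t)‖) ≤ A * (1 + ‖α t‖) := by gcongr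
      linarith
  refine ⟨α, hα0, fun t ht => ?_⟩
  have h1 : ‖α t‖ ≤ R := by
    refine (hb t ht).trans ?_
    rw [hRdef, sub_zero]
    exact hmono ht.2
  have h2 := hα t ht
  simp only [Function.comp_apply, clampR_eq _ h1] at h2
  exact h2

end Pool.Agent.helper68.S2
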