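import Mathlib
import Pool.Agent.helper68.S2.Flow
import Pool.Agent.helper44.S2GOde

/-!
# The Galerkin vector field is locally Lipschitz with linear growth
-/

set_option autoImplicit false

open MeasureTheory Metric Set Filter
open scoped ContDiff Topology NNReal

namespace Pool.Agent.helper68.S2

/-- smooth functions on the sphere as continuous functions -/
noncomputable def toC : SS →ₗ[ℝ] C(Sph, ℝ) where
  toFun f := ⟨fun p => f p, continuous_ss f⟩
  map_add' _ _ := rfl
  map_smul' _ _ := rfl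

theorem toC_apply (f : SS) (p : Sph) : toC f p = f p := rfl

theorem toC_mul (f g : SS) : toC (f * g) = toC f * toC g := rfl

theorem abs_le_toC (f : SS) (p : Sph) : |f p| ≤ ‖toC f‖ := by
  rw [← toC_apply, ← Real.norm_eq_abs]
  exact (toC f).norm_coe_le_norm p

theorem toC_norm_le {f : SS} {C : ℝ} (hC : 0 ≤ C) (h : ∀ p, |f p| ≤ C) : ‖toC f‖ ≤ C := by
  rw [ContinuousMap.norm_le _ hC]
  exact h

theorem abs_I_le_toC (f : SS) : |I f| ≤ ‖toC f‖ * (4 * Real.pi) := abs_I_le (abs_le_toC f)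

theorem toC_dist (f g : SS) : dist (toC f) (toC g) = ‖toC (f - g)‖ := by
  rw [dist_eq_norm, map_sub]

section LL

variable {E : Type*} [NormedAddCommGroup E]

theorem LLg_mul {A : Type*} [NormedRing A] [NormedAlgebra ℝ A] {f g : E → A}
    (hf : LocallyLipschitz f) (hg : LocallyLipschitz g) : LocallyLipschitz fun x => f x * g x := by
  have h1 : LocallyLipschitz fun q : A × A => q.1 * q.2 :=
    (contDiff_mul (𝕜 := ℝ) (n := 1) (𝔸 := A)).locallyLipschitz
  exact h1.comp (hf.prodMk hg)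

theorem LLg_smul {A : Type*} [NormedAddCommGroup A] [NormedSpace ℝ A] {f : E → ℝ} {g : E → A}
    (hf : LocallyLipschitz f) (hg : LocallyLipschitz g) : LocallyLipschitz fun x => f x • g x := by
  have h1 : LocallyLipschitz fun q : ℝ × A => q.1 • q.2 :=
    (contDiff_smul (𝕜 := ℝ) (n := 1) (F := A)).locallyLipschitz
  exact h1.comp (hf.prodMk hg)

theorem LLg_add {A : Type*} [NormedAddCommGroup A] [NormedSpace ℝ A] {f : E → A} {g : E → A}
    (hf : LocallyLipschitz f) (hg : LocallyLipschitz g) : LocallyLipschitz fun x => f x + g x := by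
  have h1 : LocallyLipschitz fun q : A × A => q.1 + q.2 :=
    (contDiff_add (𝕜 := ℝ) (n := 1) (F := A)).locallyLipschitz
  exact h1.comp (hf.prodMk hg)

theorem LLg_sub {A : Type*} [NormedAddCommGroup A] [NormedSpace ℝ A] {f : E → A} {g : E → A}
    (hf : LocallyLipschitz f) (hg : LocallyLipschitz g) : LocallyLipschitz fun x => f x - g x := by
  have h1 : LocallyLipschitz fun q : A × A => q.1 - q.2 :=
    ((contDiff_fst (𝕜 := ℝ) (n := 1) (E := A) (F := A)).sub contDiff_snd).locallyLipschitz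
  exact h1.comp (hf.prodMk hg)

theorem LL_mul {u v : E → SS} (hu : LocallyLipschitz fun x => toC (u x))
    (hv : LocallyLipschitz fun x => toC (v x)) : LocallyLipschitz fun x => toC (u x * v x) := by
  simp only [toC_mul]
  exact LLg_mul hu hv

theorem LL_smul {a : E → ℝ} {v : E → SS} (hu : LocallyLipschitz a)
    (hv : LocallyLipschitz fun x => toC (v x)) : LocallyLipschitz fun x => toC (a x • v x) := by
  simp only [map_smul]
  exact LLg_smul hu hv

theorem LL_add {u v : E → SS} (hu : LocallyLipschitz fun x => toC (u x))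
    (hv : LocallyLipschitz fun x => toC (v x)) : LocallyLipschitz fun x => toC (u x + v x) := by
  simp only [map_add]
  exact LLg_add hu hv

theorem LL_sub {u v : E → SS} (hu : LocallyLipschitz fun x => toC (u x))
    (hv : LocallyLipschitz fun x => toC (v x)) : LocallyLipschitz fun x => toC (u x - v x) := by
  simp only [map_sub]
  exact LLg_sub hu hv

theorem LL_I {u : E → SS} (hu : LocallyLipschitz fun x => toC (u x)) :
    LocallyLipschitz fun x => I (u x) := by
  intro x
  obtain ⟨K, t, ht, h⟩ := hu x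
  refine ⟨K * ⟨4 * Real.pi, by positivity⟩, t, ht, ?_⟩
  apply LipschitzOnWith.of_dist_le_mul
  intro y hy z hz
  have h1 := h.dist_le_mul y hy z hz
  rw [toC_dist] at h1
  have h2 := abs_I_le_toC (u y - u z)
  rw [map_sub, ← Real.dist_eq] at h2
  refine h2.trans ?_
  push_cast
  change _ ≤ (K : ℝ) * (4 * Real.pi) * dist y z
  have hpi := Real.pi_pos
  nlinarith [mul_le_mul_of_nonneg_right h1 (show 0 ≤ 4 * Real.pi by positivity)]

theorem LL_cmp {φ : ℝ → ℝ} (hφ : ContDiff ℝ ∞ φ) {C : ℝ≥0} (hC : LipschitzWith C φ)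
    {u : E → SS} (hu : LocallyLipschitz fun x => toC (u x)) :
    LocallyLipschitz fun x => toC (cmp φ (u x)) := by
  have hap : ∀ (f : SS) (p : Sph), cmp φ f p = φ (f p) := fun f p =>
    cmp_apply (s := univ) hφ.contDiffOn f (fun _ => mem_univ _) p
  intro x
  obtain ⟨K, t, ht, h⟩ := hu x
  refine ⟨C * K, t, ht, ?_⟩
  apply LipschitzOnWith.of_dist_le_mul
  intro y hy z hz
  have h1 := h.dist_le_mul y hy z hz
  rw [ContinuousMap.dist_le (by positivity)]
  intro p
  rw [toC_apply, toC_apply, hap, hap]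
  have h2 := hC.dist_le_mul (u y p) (u z p)
  have h3 : dist (u y p) (u z p) ≤ dist (toC (u y)) (toC (u z)) :=
    ContinuousMap.dist_apply_le_dist (f := toC (u y)) (g := toC (u z)) p
  push_cast
  calc dist (φ (u y p)) (φ (u z p)) ≤ C * dist (u y p) (u z p) := h2
    _ ≤ C * (K * dist y z) := by gcongr; exact h3.trans h1
    _ = C * K * dist y z := by ring

theorem LL_inv {a : E → ℝ} (ha : LocallyLipschitz a) {m : ℝ} (hm : 0 < m) (h : ∀ x, m ≤ a x) :
    LocallyLipschitz fun x => (a x)⁻¹ := by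
  intro x
  obtain ⟨K, t, ht, hK⟩ := ha x
  refine ⟨K * ⟨(m ^ 2)⁻¹, by positivity⟩, t, ht, ?_⟩
  apply LipschitzOnWith.of_dist_le_mul
  intro y hy z hz
  have h1 := hK.dist_le_mul y hy z hz
  push_cast
  change _ ≤ (K : ℝ) * (m ^ 2)⁻¹ * dist y z
  have hy' := h y
  have hz' := h z
  have hy0 : 0 < a y := hm.trans_le hy'
  have hz0 : 0 < a z := hm.trans_le hz'
  have e : dist (a y)⁻¹ (a z)⁻¹ = dist (a y) (a z) * (a y * a z)⁻¹ := by
    rw [Real.dist_eq, Real.dist_eq]
    have : (a y)⁻¹ - (a z)⁻¹ = -((a y - a z) * (a y * a z)⁻¹) := by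
      field_simp
      ring
    rw [this, abs_neg, abs_mul, abs_of_pos (show 0 < (a y * a z)⁻¹ by positivity)]
  rw [e]
  have h2 : (a y * a z)⁻¹ ≤ (m ^ 2)⁻¹ := by
    apply inv_anti₀ (by positivity)
    nlinarith
  calc dist (a y) (a z) * (a y * a z)⁻¹ ≤ (K * dist y z) * (m ^ 2)⁻¹ := by
        gcongr
    _ = K * (m ^ 2)⁻¹ * dist y z := by ring

theorem LL_lin {E : Type*} [NormedAddCommGroup E] [NormedSpace ℝ E] [FiniteDimensional ℝ E] (l : E →ₗ[ℝ] SS) : LocallyLipschitz fun x => toC (l x) :=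
  (LinearMap.toContinuousLinearMap (toC ∘ₗ l)).lipschitz.locallyLipschitz

theorem lin_bound {E : Type*} [NormedAddCommGroup E] [NormedSpace ℝ E] [FiniteDimensional ℝ E] (l : E →ₗ[ℝ] SS) :
    ∃ C : ℝ, 0 ≤ C ∧ ∀ x, ‖toC (l x)‖ ≤ C * ‖x‖ :=
  ⟨‖LinearMap.toContinuousLinearMap (toC ∘ₗ l)‖,
    ContinuousLinearMap.opNorm_nonneg _,
    (LinearMap.toContinuousLinearMap (toC ∘ₗ l)).le_opNorm⟩

end LL

end Pool.Agent.helper68.S2
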