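import Mathlib
import Pool.Agent.helper44.S2GField
import Pool.Agent.helper68.S2.GB

/-!
# Galerkin approximations: global solutions in coordinates
-/

set_option autoImplicit false

open MeasureTheory Metric Set Filter
open scoped ContDiff Topology NNReal

namespace Pool.Agent.helper68.S2

/-! ### Functions constant outside a compact set -/

/-- functions all of whose derivatives are bounded (same as `Nice`) -/
def NiceG (φ : ℝ → ℝ) : Prop := ContDiff ℝ ∞ φ ∧ ∃ c, HasCompactSupport fun y => φ y - c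

theorem NiceG.comp {φ g : ℝ → ℝ} (h : NiceG φ) (hg : ContDiff ℝ ∞ g) :
    NiceG (fun y => g (φ y)) := by
  obtain ⟨h1, c, h2⟩ := h
  refine ⟨hg.comp h1, g c, ?_⟩
  have h3 := h2.comp_left (g := fun z => g (z + c) - g c) (by simp)
  have e : (fun z => g (z + c) - g c) ∘ (fun y => φ y - c) = fun y => g (φ y) - g c := by
    funext y
    simp
  rw [e] at h3
  exact h3

theorem NiceG.bdd {φ : ℝ → ℝ} (h : NiceG φ) : ∃ C : ℝ, 0 ≤ C ∧ ∀ y, |φ y| ≤ C := by
  obtain ⟨h1, c, h2⟩ := h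
  obtain ⟨C, hC⟩ := h2.exists_bound_of_continuous (h1.continuous.sub continuous_const)
  refine ⟨|C| + |c|, by positivity, fun y => ?_⟩
  have h3 := hC y
  rw [Real.norm_eq_abs] at h3
  have h4 : φ y = (φ y - c) + c := by ring
  rw [h4]
  exact (abs_add_le _ _).trans (add_le_add (h3.trans (le_abs_self C)) le_rfl)

theorem NiceG.lip {φ : ℝ → ℝ} (h : NiceG φ) : ∃ C, LipschitzWith C φ := by
  obtain ⟨h1, c, h2⟩ := h
  have h3 : ContDiff ℝ ∞ fun y => φ y - c := h1.sub contDiff_const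
  obtain ⟨C, hC⟩ := h3.lipschitzWith_of_hasCompactSupport h2 (by simp)
  refine ⟨C, ?_⟩
  apply LipschitzWith.of_dist_le_mul
  intro x y
  have := hC.dist_le_mul x y
  rwa [Real.dist_eq, sub_sub_sub_cancel_right, ← Real.dist_eq] at this

theorem NiceG.apply {φ : ℝ → ℝ} (h : NiceG φ) (f : SS) (p : Sph) : cmp φ f p = φ (f p) :=
  cmp_apply (s := univ) h.1.contDiffOn f (fun _ => mem_univ _) p

theorem NiceG.LL {E : Type*} [NormedAddCommGroup E] {φ : ℝ → ℝ} (h : NiceG φ) {u : E → SS}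
    (hu : LocallyLipschitz fun x => toC (u x)) :
    LocallyLipschitz fun x => toC (cmp φ (u x)) := by
  obtain ⟨C, hC⟩ := h.lip
  exact LL_cmp h.1 hC hu

theorem NiceG.norm_cmp {φ : ℝ → ℝ} (h : NiceG φ) : ∃ C : ℝ, 0 ≤ C ∧ ∀ f, ‖toC (cmp φ f)‖ ≤ C := by
  obtain ⟨C, hC0, hC⟩ := h.bdd
  refine ⟨C, hC0, fun f => toC_norm_le hC0 fun p => ?_⟩
  rw [h.apply]
  exact hC _

theorem NiceG.exp_two {θ : ℝ → ℝ} (h : NiceG θ) (a : ℝ) : NiceG fun y => Real.exp (a * θ y) :=
  h.comp (g := fun z => Real.exp (a * z)) (Real.contDiff_exp.comp (contDiff_const.mul contDiff_id))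

theorem NiceG.sq {χ : ℝ → ℝ} (h : NiceG χ) : NiceG fun y => χ y ^ 2 :=
  h.comp (g := fun z => z ^ 2) (contDiff_id.pow 2)

/-- lower bound of the integral of the exponential -/
theorem NiceG.int_lower {θ : ℝ → ℝ} (h : NiceG θ) :
    ∃ m : ℝ, 0 < m ∧ ∀ u : SS, m ≤ I (cmp (fun y => Real.exp (2 * θ y)) u) := by
  obtain ⟨C, hC0, hC⟩ := h.bdd
  refine ⟨Real.exp (-(2 * C)) * (4 * Real.pi), by positivity, fun u => ?_⟩
  rw [← I_const]
  apply I_mono
  intro p
  rw [ss_algebraMap, (h.exp_two 2).apply]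
  apply Real.exp_le_exp.mpr
  have := (abs_le.mp (hC (u p))).1
  linarith

/-! ### Vector-valued locally Lipschitz maps -/

theorem locallyLipschitz_pi {E : Type*} [NormedAddCommGroup E] {ι : Type*} [Fintype ι]
    {f : E → ι → ℝ} (h : ∀ i, LocallyLipschitz fun x => f x i) : LocallyLipschitz f := by
  classical
  intro x
  choose K t ht hK using fun i => h i x
  refine ⟨∑ i, K i, ⋂ i, t i, (Filter.iInter_mem).mpr ht, ?_⟩
  apply LipschitzOnWith.of_dist_le_mul
  intro y hy z hz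
  rw [dist_pi_le_iff (by positivity)]
  intro i
  have h1 := (hK i).dist_le_mul y (mem_iInter.mp hy i) z (mem_iInter.mp hz i)
  refine h1.trans ?_
  have h2 : (K i : ℝ) ≤ ((∑ i, K i : ℝ≥0) : ℝ) := by
    have : K i ≤ ∑ i, K i := Finset.single_le_sum (f := K) (fun _ _ => zero_le) (Finset.mem_univ i)
    exact_mod_cast this
  gcongr

/-! ### The vector field -/

section field

variable {d : ℕ} (b : Fin d → SS)

/-- first component -/
noncomputable def lu : (Fin d ⊕ Fin d → ℝ) →ₗ[ℝ] SS :=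
  ∑ j, (LinearMap.proj (R := ℝ) (φ := fun _ : Fin d ⊕ Fin d => ℝ) (Sum.inl j)).smulRight (b j)

/-- second component -/
noncomputable def lF : (Fin d ⊕ Fin d → ℝ) →ₗ[ℝ] SS :=
  ∑ j, (LinearMap.proj (R := ℝ) (φ := fun _ : Fin d ⊕ Fin d => ℝ) (Sum.inr j)).smulRight (b j)

theorem lu_apply (x : Fin d ⊕ Fin d → ℝ) : lu b x = ∑ j, x (Sum.inl j) • b j := by
  unfold lu
  rw [LinearMap.sum_apply]
  rfl

theorem lF_apply (x : Fin d ⊕ Fin d → ℝ) : lF b x = ∑ j, x (Sum.inr j) • b j := by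
  unfold lF
  rw [LinearMap.sum_apply]
  rfl

/-- right hand side of the second equation -/
noncomputable def rhsF (χ θ : ℝ → ℝ) (x : Fin d ⊕ Fin d → ℝ) : SS :=
  Gc χ θ (lu b x) (lF b x) * Lap (lF b x) + Bc χ θ (lu b x) (lF b x)

theorem rhsF_LL {χ θ : ℝ → ℝ} (hχ : NiceG χ) (hθ : NiceG θ) :
    LocallyLipschitz fun x => toC (rhsF b χ θ x) := by
  have hu := LL_lin (lu b)
  have hF := LL_lin (lF b)
  have hL := LL_lin (Lap ∘ₗ lF b)
  have e2 := (hθ.exp_two 2).LL hu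
  have em2 := (hθ.exp_two (-2)).LL hu
  have c1 := hχ.LL hF
  have c2 := hχ.sq.LL hF
  obtain ⟨m, hm, hm'⟩ := hθ.int_lower
  have i2 : LocallyLipschitz fun x => I (cmp (fun y => Real.exp (2 * θ y)) (lu b x)) := LL_I e2
  have i2' := LL_inv i2 hm (fun x => hm' _)
  have hG : LocallyLipschitz fun x => toC (Gc χ θ (lu b x) (lF b x)) := by
    unfold Gc
    refine LL_smul ?_ (LL_mul c2 em2)
    simp only [div_eq_mul_inv]
    exact LLg_mul i2 (LocallyLipschitz.const _)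
  have hB : LocallyLipschitz fun x => toC (Bc χ θ (lu b x) (lF b x)) := by
    unfold Bc
    refine LL_sub (LL_smul (LocallyLipschitz.const _) c2) (LL_smul ?_ c1)
    simp only [div_eq_mul_inv]
    exact LLg_mul (LocallyLipschitz.const _) (LLg_mul (LL_I (LL_mul c1 e2)) i2')
  exact LL_add (LL_mul hG hL) hB

theorem rhsF_growth {χ θ : ℝ → ℝ} (hχ : NiceG χ) (hθ : NiceG θ) :
    ∃ A : ℝ, 0 ≤ A ∧ ∀ x, ‖toC (rhsF b χ θ x)‖ ≤ A * (1 + ‖x‖) := by
  obtain ⟨L, hL0, hL⟩ := lin_bound (Lap ∘ₗ lF b)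
  obtain ⟨E2, hE20, hE2⟩ := (hθ.exp_two 2).norm_cmp
  obtain ⟨Em, hEm0, hEm⟩ := (hθ.exp_two (-2)).norm_cmp
  obtain ⟨C1, hC10, hC1⟩ := hχ.norm_cmp
  obtain ⟨C2, hC20, hC2⟩ := hχ.sq.norm_cmp
  obtain ⟨m, hm, hm'⟩ := hθ.int_lower
  have hpi := Real.pi_pos
  refine ⟨E2 * (C2 * Em) * L + (2 * C2 + 2 * (C1 * E2 * (4 * Real.pi) / m) * C1), by positivity,
    fun x => ?_⟩
  have hmulC : ∀ f g : C(Sph, ℝ), ‖f * g‖ ≤ ‖f‖ * ‖g‖ := fun f g => norm_mul_le f g
  have h1 : |I (cmp (fun y => Real.exp (2 * θ y)) (lu b x))| ≤ E2 * (4 * Real.pi) :=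
    (abs_I_le_toC _).trans (by gcongr; exact hE2 _)
  have hG : ‖toC (Gc χ θ (lu b x) (lF b x))‖ ≤ E2 * (C2 * Em) := by
    unfold Gc
    rw [map_smul, toC_mul, norm_smul]
    have h2 : ‖I (cmp (fun y => Real.exp (2 * θ y)) (lu b x)) / (4 * Real.pi)‖ ≤ E2 := by
      rw [Real.norm_eq_abs, abs_div, abs_of_pos (show 0 < 4 * Real.pi by positivity),
        div_le_iff₀ (by positivity)]
      exact h1
    have h3 := (hmulC (toC (cmp (fun y => χ y ^ 2) (lF b x)))
      (toC (cmp (fun y => Real.exp (-2 * θ y)) (lu b x)))).trans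
        (mul_le_mul (hC2 _) (hEm _) (norm_nonneg _) hC20)
    exact mul_le_mul h2 h3 (norm_nonneg _) hE20
  have hB : ‖toC (Bc χ θ (lu b x) (lF b x))‖ ≤
      2 * C2 + 2 * (C1 * E2 * (4 * Real.pi) / m) * C1 := by
    unfold Bc
    rw [map_sub, map_smul, map_smul]
    refine (norm_sub_le _ _).trans ?_
    rw [norm_smul, norm_smul]
    have h2 : ‖(2 : ℝ)‖ * ‖toC (cmp (fun y => χ y ^ 2) (lF b x))‖ ≤ 2 * C2 := by
      rw [Real.norm_eq_abs, abs_of_pos (by norm_num : (0 : ℝ) < 2)]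
      gcongr
      exact hC2 _
    have h3 : |I (cmp χ (lF b x) * cmp (fun y => Real.exp (2 * θ y)) (lu b x))| ≤
        C1 * E2 * (4 * Real.pi) := by
      refine (abs_I_le_toC _).trans ?_
      rw [toC_mul]
      have := (hmulC (toC (cmp χ (lF b x)))
        (toC (cmp (fun y => Real.exp (2 * θ y)) (lu b x)))).trans
        (mul_le_mul (hC1 _) (hE2 _) (norm_nonneg _) hC10)
      gcongr
    have h4 : ‖2 * (I (cmp χ (lF b x) * cmp (fun y => Real.exp (2 * θ y)) (lu b x)) /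
        I (cmp (fun y => Real.exp (2 * θ y)) (lu b x)))‖ ≤
        2 * (C1 * E2 * (4 * Real.pi) / m) := by
      rw [Real.norm_eq_abs, abs_mul, abs_div, abs_of_pos (by norm_num : (0 : ℝ) < 2)]
      have h5 := hm' (lu b x)
      have h6 : m ≤ |I (cmp (fun y => Real.exp (2 * θ y)) (lu b x))| := h5.trans (le_abs_self _)
      gcongr
    have h7 := mul_le_mul h4 (hC1 (lF b x)) (norm_nonneg _) (by positivity)
    linarith
  unfold rhsF
  rw [map_add, toC_mul]
  refine (norm_add_le _ _).trans ?_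
  have h8 : ‖toC (Gc χ θ (lu b x) (lF b x)) * toC (Lap (lF b x))‖ ≤
      E2 * (C2 * Em) * (L * ‖x‖) :=
    (hmulC _ _).trans (mul_le_mul hG (hL x) (norm_nonneg _) (by positivity))
  have hx := norm_nonneg x
  have h9 : 0 ≤ E2 * (C2 * Em) * L := by positivity
  have h10 : 0 ≤ 2 * C2 + 2 * (C1 * E2 * (4 * Real.pi) / m) * C1 := by positivity
  nlinarith [mul_nonneg h10 hx]

/-- the vector field in coordinates -/
noncomputable def vf (e : Fin d → ℝ) (χ θ : ℝ → ℝ) (x : Fin d ⊕ Fin d → ℝ) :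
    Fin d ⊕ Fin d → ℝ :=
  Sum.elim (fun j => x (Sum.inr j) - e j) (fun j => I (rhsF b χ θ x * b j))

theorem vf_LL (e : Fin d → ℝ) {χ θ : ℝ → ℝ} (hχ : NiceG χ) (hθ : NiceG θ) :
    LocallyLipschitz (vf b e χ θ) := by
  apply locallyLipschitz_pi
  rintro (j | j)
  · change LocallyLipschitz fun x : Fin d ⊕ Fin d → ℝ => x (Sum.inr j) - e j
    have h1 : LipschitzWith 1 (fun x : Fin d ⊕ Fin d → ℝ => x (Sum.inr j)) :=
      LipschitzWith.eval (Sum.inr j)
    exact LLg_sub h1.locallyLipschitz (LocallyLipschitz.const _)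
  · change LocallyLipschitz fun x : Fin d ⊕ Fin d → ℝ => I (rhsF b χ θ x * b j)
    exact LL_I (LL_mul (rhsF_LL b hχ hθ) (LocallyLipschitz.const _))

theorem vf_growth (e : Fin d → ℝ) {χ θ : ℝ → ℝ} (hχ : NiceG χ) (hθ : NiceG θ) :
    ∃ A : ℝ, ∀ x, ‖vf b e χ θ x‖ ≤ A * (1 + ‖x‖) := by
  obtain ⟨A, hA0, hA⟩ := rhsF_growth b hχ hθ
  have hpi := Real.pi_pos
  refine ⟨1 + (∑ j, |e j|) + A * (∑ j, ‖toC (b j)‖) * (4 * Real.pi), fun x => ?_⟩
  have he0 : 0 ≤ ∑ j, |e j| := Finset.sum_nonneg fun _ _ => abs_nonneg _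
  have hb0 : 0 ≤ ∑ j, ‖toC (b j)‖ := Finset.sum_nonneg fun _ _ => norm_nonneg _
  have hx := norm_nonneg x
  have hAb : 0 ≤ A * (∑ j, ‖toC (b j)‖) * (4 * Real.pi) := by positivity
  rw [pi_norm_le_iff_of_nonneg (by positivity)]
  rintro (j | j)
  · change ‖x (Sum.inr j) - e j‖ ≤ _
    have h1 := norm_le_pi_norm x (Sum.inr j)
    have h2 : |e j| ≤ ∑ j, |e j| :=
      Finset.single_le_sum (f := fun j => |e j|) (fun _ _ => abs_nonneg _) (Finset.mem_univ j)
    have h3 := norm_sub_le (x (Sum.inr j)) (e j)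
    rw [Real.norm_eq_abs (e j)] at h3
    nlinarith [mul_nonneg he0 hx, mul_nonneg hAb hx]
  · change ‖I (rhsF b χ θ x * b j)‖ ≤ _
    have h2 : ‖toC (b j)‖ ≤ ∑ j, ‖toC (b j)‖ :=
      Finset.single_le_sum (f := fun j => ‖toC (b j)‖) (fun _ _ => norm_nonneg _)
        (Finset.mem_univ j)
    have h4 : ‖toC (rhsF b χ θ x * b j)‖ ≤ A * (1 + ‖x‖) * ∑ j, ‖toC (b j)‖ := by
      rw [toC_mul]
      exact (norm_mul_le _ _).trans (mul_le_mul (hA x) h2 (norm_nonneg _) (by positivity))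
    have h5 := (abs_I_le_toC (rhsF b χ θ x * b j)).trans
      (mul_le_mul_of_nonneg_right h4 (show 0 ≤ 4 * Real.pi by positivity))
    rw [Real.norm_eq_abs]
    refine h5.trans ?_
    have h6 : 0 ≤ (1 + ∑ j, |e j|) * (1 + ‖x‖) := by positivity
    nlinarith

end field

/-! ### Curves with values in a finite-dimensional space -/

theorem CC_sum {J : Set ℝ} {d : ℕ} (b : Fin d → SS) {a : ℝ → Fin d → ℝ}
    (ha : ∀ j, ContinuousOn (fun t => a t j) J) : CC J (fun t => ∑ j, a t j • b j) := by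
  have h : ∀ s : Finset (Fin d), CC J (fun t => ∑ j ∈ s, a t j • b j) := by
    intro s
    induction s using Finset.induction_on with
    | empty =>
      simp only [Finset.sum_empty]
      exact CC.const 0
    | insert k s hk ih =>
      simp only [Finset.sum_insert hk]
      exact (CC.smul (ha k) (CC.const (b k))).add ih
  exact h _

theorem CD_sum {J : Set ℝ} {d : ℕ} (b : Fin d → SS) {a a' : ℝ → Fin d → ℝ}
    (ha : ∀ j, ∀ t ∈ J, HasDerivWithinAt (fun t => a t j) (a' t j) J t) :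
    CD J (fun t => ∑ j, a t j • b j) (fun t => ∑ j, a' t j • b j) := by
  have h : ∀ s : Finset (Fin d), CD J (fun t => ∑ j ∈ s, a t j • b j)
      (fun t => ∑ j ∈ s, a' t j • b j) := by
    intro s
    induction s using Finset.induction_on with
    | empty =>
      simp only [Finset.sum_empty]
      exact CD.const 0
    | insert k s hk ih =>
      simp only [Finset.sum_insert hk]
      have h1 := CD.smul (a := fun t => a t k) (a' := fun t => a' t k) (ha k)
        (CD.const (J := J) (b k))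
      simp only [smul_zero, add_zero] at h1
      exact h1.add ih
  exact h _

/-- the Galerkin system in coordinates -/
theorem galerkin_coord {d : ℕ} (b : Fin d → SS) (e : Fin d → ℝ) (he : (1 : SS) = ∑ j, e j • b j)
    (χ θ : ℝ → ℝ) (hχ : NiceG χ) (hθ : NiceG θ) (a₀ c₀ : Fin d → ℝ) (T : ℝ) (hT : 0 < T) :
    ∃ a c : ℝ → Fin d → ℝ, a 0 = a₀ ∧ c 0 = c₀ ∧
      CC (Icc 0 T) (fun t => ∑ j, a t j • b j) ∧ CC (Icc 0 T) (fun t => ∑ j, c t j • b j) ∧
      CD (Icc 0 T) (fun t => ∑ j, a t j • b j) (fun t => ∑ j, c t j • b j - 1) ∧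
      CD (Icc 0 T) (fun t => ∑ j, c t j • b j) (fun t => ∑ j,
        I ((Gc χ θ (∑ j, a t j • b j) (∑ j, c t j • b j) * Lap (∑ j, c t j • b j) +
          Bc χ θ (∑ j, a t j • b j) (∑ j, c t j • b j)) * b j) • b j) := by
  obtain ⟨A, hA⟩ := vf_growth b e hχ hθ
  obtain ⟨x, hx0, hx⟩ := exists_global_ode (vf b e χ θ) (vf_LL b e hχ hθ) A hA
    (Sum.elim a₀ c₀) T hT
  have hcomp : ∀ i, ∀ t ∈ Icc 0 T, HasDerivWithinAt (fun t => x t i) (vf b e χ θ (x t) i)
      (Icc 0 T) t := fun i t ht => (hasDerivWithinAt_pi.mp (hx t ht)) i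
  have hcont : ∀ i, ContinuousOn (fun t => x t i) (Icc 0 T) := fun i t ht =>
    (hcomp i t ht).continuousWithinAt
  refine ⟨fun t j => x t (Sum.inl j), fun t j => x t (Sum.inr j), ?_, ?_, ?_, ?_, ?_, ?_⟩
  · funext j
    simp [hx0]
  · funext j
    simp [hx0]
  · exact CC_sum b fun j => hcont _
  · exact CC_sum b fun j => hcont _
  · have h1 := CD_sum (J := Icc 0 T) b (a := fun t j => x t (Sum.inl j))
      (a' := fun t j => x t (Sum.inr j) - e j) fun j t ht => hcomp (Sum.inl j) t ht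
    refine h1.congr (fun t _ => rfl) fun t _ => ?_
    rw [he, ← Finset.sum_sub_distrib]
    refine Finset.sum_congr rfl fun j _ => ?_
    rw [sub_smul]
  · have h1 := CD_sum (J := Icc 0 T) b (a := fun t j => x t (Sum.inr j))
      (a' := fun t j => I (rhsF b χ θ (x t) * b j)) fun j t ht => hcomp (Sum.inr j) t ht
    refine h1.congr (fun t _ => rfl) fun t _ => ?_
    unfold rhsF
    rw [lu_apply, lF_apply]

end Pool.Agent.helper68.S2
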