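import Mathlib
import Pool.Agent.helper44.S2GMain
import Pool.Agent.helper24.S2S
import Pool.Agent.helper9.S2.Words

/-!
# Galerkin approximations (module G)
-/

set_option autoImplicit false

open MeasureTheory Metric Set Filter
open scoped ContDiff Topology NNReal

namespace Pool.Agent.helper68.S2

theorem galerkin (χ θ : ℝ → ℝ) (hχ : Nice χ) (hθ : Nice θ) (N : ℕ) (u₀ F₀ : SS)
    (hu : u₀ ∈ V N) (hF : F₀ ∈ V N) (T : ℝ) (hT : 0 < T) :
    ∃ u F : ℝ → SS, u 0 = u₀ ∧ F 0 = F₀ ∧ (∀ t, u t ∈ V N) ∧ (∀ t, F t ∈ V N) ∧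
      CC (Icc 0 T) u ∧ CC (Icc 0 T) F ∧ CD (Icc 0 T) u (fun t => F t - 1) ∧
      CD (Icc 0 T) F (fun t => Pi N (Gc χ θ (u t) (F t) * Lap (F t) + Bc χ θ (u t) (F t))) := by
  obtain ⟨d, b, hb, ho, hs⟩ := exists_basis N
  obtain ⟨a, c, ha0, hc0, hCa, hCc, hDa, hDc⟩ := galerkin_coord b (fun j => I (1 * b j))
    (hs 1 (one_mem_V N)) χ θ hχ hθ (fun j => I (u₀ * b j)) (fun j => I (F₀ * b j)) T hT
  refine ⟨fun t => ∑ j, a t j • b j, fun t => ∑ j, c t j • b j, ?_, ?_, ?_, ?_, hCa, hCc, hDa, ?_⟩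
  · simp only [ha0]
    exact (hs u₀ hu).symm
  · simp only [hc0]
    exact (hs F₀ hF).symm
  · exact fun t => Submodule.sum_mem _ fun j _ => Submodule.smul_mem _ _ (hb j)
  · exact fun t => Submodule.sum_mem _ fun j _ => Submodule.smul_mem _ _ (hb j)
  · refine hDc.congr (fun t _ => rfl) fun t _ => ?_
    rw [Pi_eq_sum hb ho hs]

end Pool.Agent.helper68.S2
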