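import Mathlib

/-!
Frattini type arguments for subgroups `⟨a, b ^ g⟩`.
-/

set_option autoImplicit false

namespace Pool.Agent.helper44.ProP

open Subgroup

/-- The subgroup generated by `p`-th powers and commutators. -/
def verb (p : ℕ) (H : Type*) [Group H] : Subgroup H :=
  Subgroup.closure ({y | ∃ x : H, y = x ^ p} ∪ {y | ∃ x z : H, y = x * z * x⁻¹ * z⁻¹})

lemma pow_mem_verb (p : ℕ) {H : Type*} [Group H] (x : H) : x ^ p ∈ verb p H :=
  Subgroup.subset_closure (Or.inl ⟨x, rfl⟩)

lemma comm_mem_verb (p : ℕ) {H : Type*} [Group H] (x z : H) : x * z * x⁻¹ * z⁻¹ ∈ verb p H :=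
  Subgroup.subset_closure (Or.inr ⟨x, z, rfl⟩)

lemma map_verb_le (p : ℕ) {H H' : Type*} [Group H] [Group H'] (f : H →* H') :
    (verb p H).map f ≤ verb p H' := by
  rw [verb, MonoidHom.map_closure, Subgroup.closure_le]
  rintro _ ⟨y, (⟨x, rfl⟩ | ⟨x, z, rfl⟩), rfl⟩
  · rw [map_pow]; exact pow_mem_verb p _
  · rw [map_mul, map_mul, map_mul, map_inv, map_inv]; exact comm_mem_verb p _ _

instance verb_char (p : ℕ) (H : Type*) [Group H] : (verb p H).Characteristic := by
  rw [Subgroup.characteristic_iff_map_le]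
  intro φ
  exact map_verb_le p φ.toMonoidHom

lemma verb_finiteIndex (p : ℕ) (hp : 0 < p) (H : Type*) [Group H] [Group.FG H] :
    (verb p H).FiniteIndex := by
  let Q := H ⧸ verb p H
  have hcomm : ∀ x y : Q, x * y = y * x := by
    intro x y
    induction x using QuotientGroup.induction_on with
    | H x =>
      induction y using QuotientGroup.induction_on with
      | H y =>
        rw [← QuotientGroup.mk_mul, ← QuotientGroup.mk_mul, QuotientGroup.eq]
        have : (x * y)⁻¹ * (y * x) = y⁻¹ * x⁻¹ * (y⁻¹)⁻¹ * (x⁻¹)⁻¹ := by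
          group
        rw [this]
        exact comm_mem_verb p _ _
  let _ : CommGroup Q := { (inferInstance : Group Q) with mul_comm := hcomm }
  have hfin : Finite Q := by
    apply CommGroup.finite_of_fg_isMulTorsion
    intro x
    rw [isOfFinOrder_iff_pow_eq_one]
    refine ⟨p, hp, ?_⟩
    induction x using QuotientGroup.induction_on with
    | H x =>
      rw [← QuotientGroup.mk_pow]
      exact (QuotientGroup.eq_one_iff _).mpr (pow_mem_verb p x)
  exact Subgroup.finiteIndex_of_finite_quotient

/-- In a finite `p`-group, the subgroup `verb` is contained in every maximal subgroup. -/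
lemma verb_le_coatom {P : Type*} [Group P] [Finite P] {p : ℕ} [hp : Fact p.Prime]
    (hP : IsPGroup p P) (M : Subgroup P) (hM : IsCoatom M) : verb p P ≤ M := by
  have hnil : Group.IsNilpotent P := hP.isNilpotent
  have hnorm : M.Normal :=
    NormalizerCondition.normal_of_coatom M Group.normalizerCondition_of_isNilpotent hM
  have hsimple : IsSimpleGroup (P ⧸ M) := by
    have hnt : Nontrivial (P ⧸ M) := by
      rw [← not_subsingleton_iff_nontrivial]
      intro hs
      apply hM.1
      rw [eq_top_iff]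
      intro x _
      have : (x : P ⧸ M) = 1 := Subsingleton.elim _ _
      exact (QuotientGroup.eq_one_iff x).mp this
    refine ⟨fun N hN => ?_⟩
    have hle : M ≤ N.comap (QuotientGroup.mk' M) := by
      intro x hx
      have : QuotientGroup.mk' M x = 1 := (QuotientGroup.eq_one_iff x).mpr hx
      rw [Subgroup.mem_comap, this]
      exact N.one_mem
    rcases hle.eq_or_lt with h | h
    · left
      rw [eq_bot_iff]
      intro y hy
      induction y using QuotientGroup.induction_on with
      | H y =>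
        have : y ∈ N.comap (QuotientGroup.mk' M) := hy
        rw [← h] at this
        exact (QuotientGroup.eq_one_iff y).mpr this
    · right
      have h2 := hM.2 _ h
      rw [eq_top_iff]
      intro y _
      induction y using QuotientGroup.induction_on with
      | H y =>
        have : y ∈ N.comap (QuotientGroup.mk' M) := by rw [h2]; trivial
        exact this
  have hnilq : Group.IsNilpotent (P ⧸ M) := inferInstance
  have hcomm : ∀ x y : P ⧸ M, x * y = y * x := by
    intro x y
    exact (IsSimpleGroup.comm_iff_isSolvable.mpr inferInstance) x y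
  have hPq : IsPGroup p (P ⧸ M) := hP.to_quotient M
  -- the `p`-th power map is trivial on the quotient
  have hpow : ∀ x : P ⧸ M, x ^ p = 1 := by
    let _ : CommGroup (P ⧸ M) := { (inferInstance : Group (P ⧸ M)) with mul_comm := hcomm }
    let f : (P ⧸ M) →* (P ⧸ M) := powMonoidHom p
    rcases hsimple.eq_bot_or_eq_top_of_normal f.ker inferInstance with h | h
    · exfalso
      have hinj : Function.Injective f := (MonoidHom.ker_eq_bot_iff f).mp h
      obtain ⟨x, hx⟩ := exists_ne (1 : P ⧸ M)
      obtain ⟨k, hk⟩ := hPq x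
      have hinj' : ∀ j : ℕ, x ^ p ^ j = 1 → x = 1 := by
        intro j
        induction j with
        | zero => intro h; simpa using h
        | succ j ih =>
          intro h
          apply ih
          apply hinj
          show (x ^ p ^ j) ^ p = (1 : P ⧸ M) ^ p
          rw [one_pow, ← pow_mul, ← pow_succ]
          exact h
      exact hx (hinj' k hk)
    · intro x
      have : x ∈ f.ker := by rw [h]; trivial
      exact this
  rw [verb, Subgroup.closure_le]
  rintro _ (⟨x, rfl⟩ | ⟨x, z, rfl⟩)
  · have := hpow (x : P ⧸ M)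
    rw [← QuotientGroup.mk_pow] at this
    exact (QuotientGroup.eq_one_iff _).mp this
  · have h1 : ((x * z * x⁻¹ * z⁻¹ : P) : P ⧸ M) = 1 := by
      rw [QuotientGroup.mk_mul, QuotientGroup.mk_mul,
        QuotientGroup.mk_mul, QuotientGroup.mk_inv, QuotientGroup.mk_inv, hcomm (x : P ⧸ M) z]
      group
    exact (QuotientGroup.eq_one_iff _).mp h1

lemma eq_top_of_sup_verb {P : Type*} [Group P] [Finite P] {p : ℕ} [hp : Fact p.Prime]
    (hP : IsPGroup p P) (M : Subgroup P) (hM : M ⊔ verb p P = ⊤) : M = ⊤ := by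
  by_contra hne
  obtain ⟨M', hM', hle⟩ := (eq_top_or_exists_le_coatom M).resolve_left hne
  apply hM'.1
  rw [eq_top_iff, ← hM]
  exact sup_le hle (verb_le_coatom hP M' hM')

/-- If `K` supplements the Frattini type subgroup of a normal subgroup `H`, then it
supplements every normal subgroup `U ≤ H` with `H / U` a finite `p`-group. -/
theorem sup_eq_top {G : Type*} [Group G] (H : Subgroup G) [H.Normal] (p : ℕ)
    [Fact p.Prime] (K : Subgroup G) (hK : K ⊔ (verb p H).map H.subtype = ⊤)
    (U : Subgroup G) [U.Normal] [U.FiniteIndex]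
    (hpU : ∀ h ∈ H, ∃ k : ℕ, h ^ (p ^ k) ∈ U) : K ⊔ U = ⊤ := by
  have hΦ : ((verb p H).map H.subtype).Normal := inferInstance
  let P := H ⧸ U.subgroupOf H
  have hfinP : Finite P := inferInstance
  have hPp : IsPGroup p P := by
    intro x
    induction x using QuotientGroup.induction_on with
    | H x =>
      obtain ⟨k, hk⟩ := hpU x.1 x.2
      refine ⟨k, ?_⟩
      rw [← QuotientGroup.mk_pow]
      refine (QuotientGroup.eq_one_iff _).mpr ?_
      rw [Subgroup.mem_subgroupOf]
      simpa using hk
  let q : H →* P := QuotientGroup.mk' (U.subgroupOf H)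
  let M : Subgroup P := (K.subgroupOf H).map q
  have hMtop : M = ⊤ := by
    apply eq_top_of_sup_verb hPp
    rw [eq_top_iff]
    intro y _
    induction y using QuotientGroup.induction_on with
    | H x =>
      have hx : (x : G) ∈ K ⊔ (verb p H).map H.subtype := by rw [hK]; trivial
      rw [Subgroup.mem_sup_of_normal_right] at hx
      obtain ⟨k, hk, f, hf, hkf⟩ := hx
      obtain ⟨f', hf', rfl⟩ := hf
      have hkH : k ∈ H := by
        have : k = x.1 * (f' : G)⁻¹ := by
          rw [← hkf]; simp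
        rw [this]
        exact H.mul_mem x.2 (H.inv_mem f'.2)
      have hxe : x = (⟨k, hkH⟩ : H) * f' := by
        apply Subtype.ext
        simpa using hkf.symm
      rw [hxe, QuotientGroup.mk_mul]
      refine Subgroup.mul_mem _ ?_ ?_
      · exact (le_sup_left : M ≤ M ⊔ verb p P) ⟨⟨k, hkH⟩, hk, rfl⟩
      · exact (le_sup_right : verb p P ≤ M ⊔ verb p P) (map_verb_le p q ⟨f', hf', rfl⟩)
  have hHle : H ≤ K ⊔ U := by
    intro h hh
    have : q ⟨h, hh⟩ ∈ M := by rw [hMtop]; trivial
    obtain ⟨k, hk, hkq⟩ := this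
    have h1 : (k : H)⁻¹ * ⟨h, hh⟩ ∈ U.subgroupOf H := by
      rw [← QuotientGroup.eq]
      exact hkq
    rw [Subgroup.mem_subgroupOf] at h1
    have h2 : h = k.1 * ((k : H)⁻¹ * ⟨h, hh⟩ : H).1 := by simp
    rw [h2]
    exact (K ⊔ U).mul_mem ((le_sup_left : K ≤ K ⊔ U) hk) ((le_sup_right : U ≤ K ⊔ U) h1)
  rw [eq_top_iff, ← hK]
  refine sup_le le_sup_left (le_trans ?_ hHle)
  rintro _ ⟨x, _, rfl⟩
  exact x.2

/-- If `g` lies in a normal subgroup `N` of `G = ⟨a, b⟩` then `⟨a, b ^ g⟩ N = G`. -/
lemma conj_sup_eq_top {G : Type*} [Group G] (a b : G)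
    (hab : Subgroup.closure ({a, b} : Set G) = ⊤) (N : Subgroup G) [N.Normal]
    (g : G) (hg : g ∈ N) : Subgroup.closure ({a, g⁻¹ * b * g} : Set G) ⊔ N = ⊤ := by
  set K : Subgroup G := Subgroup.closure ({a, g⁻¹ * b * g} : Set G) with hK
  rw [eq_top_iff, ← hab, Subgroup.closure_le]
  have haK : a ∈ K := Subgroup.subset_closure (by simp)
  have hbK : g⁻¹ * b * g ∈ K := Subgroup.subset_closure (by simp)
  rintro y (rfl | hy)
  · exact (le_sup_left : K ≤ K ⊔ N) haK
  · rw [Set.mem_singleton_iff] at hy
    subst hy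
    have h1 : y = (g⁻¹ * y * g) * ((g⁻¹ * y⁻¹ * g) * y) := by group
    have h2 : (g⁻¹ * y⁻¹ * g) * y ∈ N := by
      have h3 : (g⁻¹ * y⁻¹ * g) * y = g⁻¹ * (y⁻¹ * g * y) := by group
      rw [h3]
      refine N.mul_mem (N.inv_mem hg) ?_
      have := (inferInstance : N.Normal).conj_mem g hg y⁻¹
      simpa using this
    show y ∈ K ⊔ N
    rw [h1]
    exact (K ⊔ N).mul_mem ((le_sup_left : K ≤ K ⊔ N) hbK) ((le_sup_right : N ≤ K ⊔ N) h2)

/-- A finite supplement `K` of a normal subgroup `U` bounds the index of `U`. -/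
lemma index_le_card {G : Type*} [Group G] (K U : Subgroup G) [U.Normal]
    (hKf : (K : Set G).Finite) (hKU : K ⊔ U = ⊤) : U.index ≤ Nat.card K := by
  have hfin : Finite K := hKf
  have hsurj : Function.Surjective (fun k : K => ((k : G) : G ⧸ U)) := by
    intro y
    induction y using QuotientGroup.induction_on with
    | H x =>
      have hx : x ∈ K ⊔ U := by rw [hKU]; trivial
      rw [Subgroup.mem_sup_of_normal_right] at hx
      obtain ⟨k, hk, u, hu, rfl⟩ := hx
      refine ⟨⟨k, hk⟩, ?_⟩
      show ((k : G) : G ⧸ U) = ((k * u : G) : G ⧸ U)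
      rw [QuotientGroup.eq]
      simpa using hu
  exact Nat.card_le_card_of_surjective _ hsurj

/-- Main Frattini type criterion. -/
theorem main {G : Type*} [Group G] (a b : G)
    (hab : Subgroup.closure ({a, b} : Set G) = ⊤) (p : ℕ) [hp : Fact p.Prime]
    (H : Subgroup G) [H.Normal] [H.FiniteIndex]
    (hU : ∀ m : ℕ, ∃ U : Subgroup G, U.Normal ∧ U.FiniteIndex ∧
      (∀ h ∈ H, ∃ k : ℕ, h ^ (p ^ k) ∈ U) ∧ m < U.index) :
    ∃ N : Subgroup G, N.Normal ∧ N.FiniteIndex ∧
      ∀ g ∈ N, (Subgroup.closure ({a, g⁻¹ * b * g} : Set G) : Set G).Infinite := by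
  have hfg : Group.FG G := by
    rw [Group.fg_iff]
    exact ⟨{a, b}, hab, by simp⟩
  have hfgH : Group.FG H := inferInstance
  have hfi : (verb p H).FiniteIndex := verb_finiteIndex p hp.out.pos H
  refine ⟨(verb p H).map H.subtype, inferInstance, ?_, ?_⟩
  · rw [Subgroup.finiteIndex_iff]
    rw [Subgroup.index_map_subtype]
    exact mul_ne_zero hfi.index_ne_zero (inferInstance : H.FiniteIndex).index_ne_zero
  · intro g hg hfin
    rw [← Set.not_infinite] at hfin
    have hfin' := Set.not_infinite.mp hfin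
    obtain ⟨U, hUn, hUf, hUp, hUm⟩ :=
      hU (Nat.card (Subgroup.closure ({a, g⁻¹ * b * g} : Set G)))
    have h1 := conj_sup_eq_top a b hab ((verb p H).map H.subtype) g hg
    have h2 := sup_eq_top H p _ h1 U hUp
    have h3 := index_le_card _ U hfin' h2
    omega

/-- The pro-`p` criterion: some finite index subgroup has normal subgroups of index `p ^ e` for
arbitrarily large `e`. -/
theorem main_proP {G : Type*} [Group G] (a b : G)
    (hab : Subgroup.closure ({a, b} : Set G) = ⊤)
    (p : ℕ) (hp : p.Prime) (H : Subgroup G) [H.FiniteIndex]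
    (hH : ∀ m : ℕ, ∃ e : ℕ, m ≤ e ∧ ∃ U : Subgroup H, U.Normal ∧ U.index = p ^ e) :
    ∃ N : Subgroup G, N.Normal ∧ N.FiniteIndex ∧
      ∀ g ∈ N, (Subgroup.closure ({a, g⁻¹ * b * g} : Set G) : Set G).Infinite := by
  have : Fact p.Prime := ⟨hp⟩
  refine main a b hab p H.normalCore ?_
  intro m
  obtain ⟨e, hme, U, hUn, hUi⟩ := hH m
  have hUfi : U.FiniteIndex := ⟨by rw [hUi]; exact (pow_pos hp.pos e).ne'⟩
  let U' : Subgroup G := U.map H.subtype
  have hU'i : U'.index = p ^ e * H.index := by
    rw [Subgroup.index_map_subtype, hUi]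
  have hU'fi : U'.FiniteIndex := by
    refine ⟨?_⟩
    rw [hU'i]
    exact mul_ne_zero (pow_pos hp.pos e).ne' (inferInstance : H.FiniteIndex).index_ne_zero
  have hfi : (U' ⊓ H.normalCore).FiniteIndex := inferInstance
  refine ⟨(U' ⊓ H.normalCore).normalCore, inferInstance, inferInstance, ?_, ?_⟩
  · intro h hh
    refine ⟨e, ?_⟩
    intro g
    refine ⟨?_, ?_⟩
    · have h1 : g * h * g⁻¹ ∈ H := H.normalCore_le (Subgroup.Normal.conj_mem inferInstance h hh g)
      have h2 : (⟨g * h * g⁻¹, h1⟩ : H) ^ U.index ∈ U := Subgroup.pow_index_mem U _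
      rw [hUi] at h2
      refine ⟨_, h2, ?_⟩
      simp
    · exact Subgroup.Normal.conj_mem inferInstance _ (Subgroup.pow_mem _ hh _) g
  · have h1 : U'.index ≤ ((U' ⊓ H.normalCore).normalCore).index := by
      apply Subgroup.index_antitone
      exact le_trans (Subgroup.normalCore_le _) inf_le_left
    have h2 : p ^ e ≤ U'.index := by
      rw [hU'i]
      exact Nat.le_mul_of_pos_right _
        (Nat.pos_of_ne_zero (inferInstance : H.FiniteIndex).index_ne_zero)
    have h3 : e < p ^ e := Nat.lt_pow_self hp.one_lt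
    omega

/-- If a finite index subgroup maps onto `ℤ`. -/
theorem main_int {G : Type*} [Group G] (a b : G)
    (hab : Subgroup.closure ({a, b} : Set G) = ⊤)
    (H : Subgroup G) [H.FiniteIndex] (χ : H →* Multiplicative ℤ) (hχ : Function.Surjective χ) :
    ∃ N : Subgroup G, N.Normal ∧ N.FiniteIndex ∧
      ∀ g ∈ N, (Subgroup.closure ({a, g⁻¹ * b * g} : Set G) : Set G).Infinite := by
  refine main_proP a b hab 2 Nat.prime_two H ?_
  intro m
  refine ⟨m, le_rfl, ((AddSubgroup.zmultiples ((2 ^ m : ℕ) : ℤ)).toSubgroup).comap χ,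
    inferInstance, ?_⟩
  rw [Subgroup.index_comap_of_surjective _ hχ]
  have h1 : (AddSubgroup.toSubgroup (AddSubgroup.zmultiples ((2 ^ m : ℕ) : ℤ))).index =
      (AddSubgroup.zmultiples ((2 ^ m : ℕ) : ℤ)).index := rfl
  rw [h1, Int.index_zmultiples]
  simp

/-- If a finite index subgroup has an infinite abelian quotient. -/
theorem main_abelian {G : Type*} [Group G] (a b : G)
    (hab : Subgroup.closure ({a, b} : Set G) = ⊤)
    (H : Subgroup G) [H.FiniteIndex] {B : Type*} [AddCommGroup B] [Infinite B]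
    (χ : H →* Multiplicative B) (hχ : Function.Surjective χ) :
    ∃ N : Subgroup G, N.Normal ∧ N.FiniteIndex ∧
      ∀ g ∈ N, (Subgroup.closure ({a, g⁻¹ * b * g} : Set G) : Set G).Infinite := by
  have hfg : Group.FG G := by
    rw [Group.fg_iff]
    exact ⟨{a, b}, hab, by simp⟩
  have hfgH : Group.FG H := inferInstance
  have hfgB : Group.FG (Multiplicative B) := Group.fg_of_surjective hχ
  have hfgB' : AddGroup.FG B := by
    exact AddGroup.fg_iff_mul_fg.mpr hfgB
  obtain ⟨n, ι, hι, q, hq, e, ⟨f⟩⟩ := AddCommGroup.equiv_free_prod_directSum_zmod B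
  rcases Nat.eq_zero_or_pos n with h0 | hn
  · exfalso
    subst h0
    have h1 : ∀ i : ι, Finite (ZMod (q i ^ e i)) := by
      intro i
      have : NeZero (q i ^ e i) := ⟨pow_ne_zero _ (hq i).ne_zero⟩
      infer_instance
    have h2 : Finite (DirectSum ι fun i => ZMod (q i ^ e i)) :=
      Finite.of_equiv _ DFinsupp.equivFunOnFintype.symm
    have h3 : Finite B := Finite.of_equiv _ f.symm.toEquiv
    exact not_finite B
  · let π : B →+ ℤ :=
      ((Finsupp.applyAddHom (⟨0, hn⟩ : Fin n) : (Fin n →₀ ℤ) →+ ℤ).comp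
        (AddMonoidHom.fst _ _)).comp f.toAddMonoidHom
    have hπ : Function.Surjective π := by
      intro z
      refine ⟨f.symm (Finsupp.single ⟨0, hn⟩ z, 0), ?_⟩
      simp [π]
    refine main_int a b hab H ((AddMonoidHom.toMultiplicative π).comp χ) ?_
    exact Function.Surjective.comp (g := AddMonoidHom.toMultiplicative π)
      (fun y => hπ y) hχ

end Pool.Agent.helper44.ProP
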