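import Pool.Agent.helper44.ProP

/-!
Two-generated groups with infinite image in `GL n A`, `A` a finitely generated domain.
-/

set_option autoImplicit false

namespace Pool.Agent.helper44.Linear

open Pool.Agent.helper44.ProP

lemma isJacobsonRing_int : IsJacobsonRing ℤ := by
  rw [isJacobsonRing_iff_prime_eq]
  intro P hP
  by_cases h : P = ⊥
  · subst h
    rw [eq_bot_iff]
    intro x hx
    by_contra hx0
    have hx0' : x ≠ 0 := hx0
    obtain ⟨p, hp1, hp2⟩ := Nat.exists_infinite_primes (x.natAbs + 1)
    have hmax : (Ideal.span {(p : ℤ)}).IsMaximal :=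
      PrincipalIdealRing.isMaximal_of_irreducible (Nat.prime_iff_prime_int.mp hp2).irreducible
    have hxm : x ∈ Ideal.span {(p : ℤ)} := by
      rw [Ideal.jacobson, Ideal.mem_sInf] at hx
      exact hx ⟨bot_le, hmax⟩
    rw [Ideal.mem_span_singleton] at hxm
    have h1 := Int.natAbs_dvd_natAbs.mpr hxm
    have h2 := Nat.le_of_dvd (Int.natAbs_pos.mpr hx0') h1
    simp at h2
    omega
  · have hmax : P.IsMaximal := Ring.DimensionLEOne.maximalOfPrime h hP
    exact Ideal.jacobson_eq_self_of_isMaximal

/-- A field that is finitely generated as a ring is finite. -/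
lemma finite_of_finiteType_int (S : Type*) [Field S] [Algebra.FiniteType ℤ S] : Finite S := by
  have : IsJacobsonRing ℤ := isJacobsonRing_int
  have hfin : Module.Finite ℤ S := finite_of_finite_type_of_isJacobsonRing ℤ S
  have hint : Algebra.IsIntegral ℤ S := inferInstance
  by_cases h0 : CharZero S
  · exfalso
    exact Int.not_isField
      (isField_of_isIntegral_of_isField (FaithfulSMul.algebraMap_injective ℤ S)
        (Field.toIsField S))
  · obtain ⟨p, hp⟩ := CharP.exists S
    have hp0 : p ≠ 0 := by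
      rintro rfl
      exact h0 (CharP.charP_to_charZero S)
    -- `S` is a finitely generated abelian group of exponent `p`
    have hfg : AddGroup.FG S := Module.Finite.iff_addGroup_fg.mp hfin
    apply AddCommGroup.finite_of_fg_isAddTorsion
    intro x
    rw [isOfFinAddOrder_iff_nsmul_eq_zero]
    refine ⟨p, Nat.pos_of_ne_zero hp0, ?_⟩
    rw [nsmul_eq_mul, CharP.cast_eq_zero, zero_mul]

lemma finite_of_surjective_field (A : Type*) [CommRing A] [Algebra.FiniteType ℤ A]
    (S : Type*) [Field S] (f : A →+* S) (hf : Function.Surjective f) : Finite S := by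
  have h1 : Algebra.FiniteType ℤ A := inferInstance
  have h2 : Algebra.FiniteType ℤ S := h1.of_surjective f.toIntAlgHom hf
  exact finite_of_finiteType_int S

lemma finite_quotient_maximal (A : Type*) [CommRing A] [Algebra.FiniteType ℤ A]
    (m : Ideal A) [m.IsMaximal] : Finite (A ⧸ m) :=
  @finite_of_surjective_field A _ _ (A ⧸ m) (Ideal.Quotient.field m) (Ideal.Quotient.mk m)
    Ideal.Quotient.mk_surjective

/-- All entries lie in the ideal `I`. -/
def Ent {A : Type*} [CommRing A] {n : ℕ} (I : Ideal A) (M : Matrix (Fin n) (Fin n) A) : Prop :=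
  ∀ i j, M i j ∈ I

lemma Ent.mul_right {A : Type*} [CommRing A] {n : ℕ} {I : Ideal A}
    {M N : Matrix (Fin n) (Fin n) A} (h : Ent I M) : Ent I (M * N) := by
  intro i j
  rw [Matrix.mul_apply]
  exact Ideal.sum_mem _ fun k _ => I.mul_mem_right _ (h i k)

lemma Ent.mul {A : Type*} [CommRing A] {n : ℕ} {I J : Ideal A}
    {M N : Matrix (Fin n) (Fin n) A} (h : Ent I M) (h' : Ent J N) : Ent (I * J) (M * N) := by
  intro i j
  rw [Matrix.mul_apply]
  exact Ideal.sum_mem _ fun k _ => Ideal.mul_mem_mul (h i k) (h' k j)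

lemma Ent.add {A : Type*} [CommRing A] {n : ℕ} {I : Ideal A}
    {M N : Matrix (Fin n) (Fin n) A} (h : Ent I M) (h' : Ent I N) : Ent I (M + N) :=
  fun i j => I.add_mem (h i j) (h' i j)

lemma Ent.mono {A : Type*} [CommRing A] {n : ℕ} {I J : Ideal A} (hIJ : I ≤ J)
    {M : Matrix (Fin n) (Fin n) A} (h : Ent I M) : Ent J M :=
  fun i j => hIJ (h i j)

lemma one_add_pow_eq {R : Type*} [Ring R] (Y : R) (m : ℕ) :
    ∃ Z : R, (1 + Y) ^ m = 1 + (m : R) * Y + Y * Y * Z := by
  induction m with
  | zero => exact ⟨0, by simp⟩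
  | succ m ih =>
    obtain ⟨Z, hZ⟩ := ih
    refine ⟨(m : R) + Z * (1 + Y), ?_⟩
    rw [pow_succ, hZ]
    have hc : (m : R) * Y = Y * (m : R) := (Nat.cast_commute m Y).eq
    push_cast
    have h2 : (m : R) * Y * Y = Y * Y * (m : R) := by
      rw [hc, mul_assoc, hc, mul_assoc]
    linear_combination (norm := noncomm_ring) h2

/-- The congruence subgroups of a representation over a ring. -/
def congr {G : Type*} [Group G] {A : Type*} [CommRing A] {n : ℕ}
    (f : G →* Matrix (Fin n) (Fin n) A) (I : Ideal A) : Subgroup G :=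
  (((Ideal.Quotient.mk I).mapMatrix : Matrix (Fin n) (Fin n) A →+*
    Matrix (Fin n) (Fin n) (A ⧸ I)).toMonoidHom.comp f).toHomUnits.ker

lemma mem_congr {G : Type*} [Group G] {A : Type*} [CommRing A] {n : ℕ}
    (f : G →* Matrix (Fin n) (Fin n) A) (I : Ideal A) (g : G) :
    g ∈ congr f I ↔ Ent I (f g - 1) := by
  rw [congr, MonoidHom.mem_ker, Units.ext_iff, MonoidHom.coe_toHomUnits]
  constructor
  · intro h i j
    have h1 := congrFun (congrFun h i) j
    rw [← Ideal.Quotient.eq_zero_iff_mem]
    simp only [RingHom.toMonoidHom_eq_coe, MonoidHom.coe_comp, MonoidHom.coe_coe,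
      Function.comp_apply, RingHom.mapMatrix_apply, Matrix.map_apply, Units.val_one] at h1
    rw [Matrix.sub_apply, map_sub, h1]
    by_cases hij : i = j
    · subst hij; simp
    · simp [hij]
  · intro h
    ext i j
    have h1 := h i j
    rw [← Ideal.Quotient.eq_zero_iff_mem, Matrix.sub_apply, map_sub, sub_eq_zero] at h1
    simp only [RingHom.toMonoidHom_eq_coe, MonoidHom.coe_comp, MonoidHom.coe_coe,
      Function.comp_apply, RingHom.mapMatrix_apply, Matrix.map_apply, Units.val_one]
    rw [h1]
    by_cases hij : i = j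
    · subst hij; simp
    · simp [hij]

instance congr_normal {G : Type*} [Group G] {A : Type*} [CommRing A] {n : ℕ}
    (f : G →* Matrix (Fin n) (Fin n) A) (I : Ideal A) : (congr f I).Normal := by
  unfold congr; infer_instance

lemma congr_finiteIndex {G : Type*} [Group G] {A : Type*} [CommRing A] {n : ℕ}
    (f : G →* Matrix (Fin n) (Fin n) A) (I : Ideal A) [Finite (A ⧸ I)] :
    (congr f I).FiniteIndex := by
  unfold congr
  have : Finite (Matrix (Fin n) (Fin n) (A ⧸ I)) := by unfold Matrix; infer_instance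
  infer_instance

lemma congr_mono {G : Type*} [Group G] {A : Type*} [CommRing A] {n : ℕ}
    (f : G →* Matrix (Fin n) (Fin n) A) {I J : Ideal A} (h : I ≤ J) : congr f I ≤ congr f J := by
  intro g hg
  rw [mem_congr] at hg ⊢
  exact hg.mono h

lemma congr_pow {G : Type*} [Group G] {A : Type*} [CommRing A] {n : ℕ}
    (f : G →* Matrix (Fin n) (Fin n) A) (m : Ideal A) (p : ℕ) (hp : (p : A) ∈ m)
    (g : G) (hg : g ∈ congr f m) (k : ℕ) : g ^ (p ^ k) ∈ congr f (m ^ (k + 1)) := by
  induction k with
  | zero => simpa using hg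
  | succ k ih =>
    rw [mem_congr] at ih ⊢
    set Y := f (g ^ p ^ k) - 1 with hY
    have h1 : f (g ^ p ^ k) = 1 + Y := by rw [hY]; abel
    obtain ⟨Z, hZ⟩ := one_add_pow_eq Y p
    have h2 : f (g ^ p ^ (k + 1)) - 1 = (p : Matrix (Fin n) (Fin n) A) * Y + Y * Y * Z := by
      rw [pow_succ, pow_mul, map_pow, h1, hZ]; abel
    rw [h2]
    refine Ent.add ?_ ?_
    · intro i j
      have : ((p : Matrix (Fin n) (Fin n) A) * Y) i j = (p : A) * Y i j := by
        rw [← nsmul_eq_mul, Matrix.smul_apply, nsmul_eq_mul]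
      rw [this, pow_succ' m (k + 1)]
      exact Ideal.mul_mem_mul hp (ih i j)
    · refine Ent.mul_right ?_
      refine (Ent.mul ih ih).mono ?_
      rw [← pow_add]
      exact Ideal.pow_le_pow_right (by omega)

/-- Two-generated groups with an infinite image in the matrices over a finitely generated
domain. -/
theorem domain_case {G : Type*} [Group G] (a b : G)
    (hab : Subgroup.closure ({a, b} : Set G) = ⊤)
    {A : Type*} [CommRing A] [IsDomain A] [Algebra.FiniteType ℤ A] {n : ℕ}
    (f : G →* Matrix (Fin n) (Fin n) A) (hinf : (Set.range f).Infinite) :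
    ∃ N : Subgroup G, N.Normal ∧ N.FiniteIndex ∧
      ∀ g ∈ N, (Subgroup.closure ({a, g⁻¹ * b * g} : Set G) : Set G).Infinite := by
  have hnoeth : IsNoetherianRing A := Algebra.FiniteType.isNoetherianRing ℤ A
  obtain ⟨m, hm⟩ := Ideal.exists_maximal A
  have hfin : Finite (A ⧸ m) := finite_quotient_maximal A m
  obtain ⟨p, hp⟩ := CharP.exists (A ⧸ m)
  have hpp : p.Prime := CharP.char_is_prime (A ⧸ m) p
  have : Fact p.Prime := ⟨hpp⟩
  have hpm : (p : A) ∈ m := by
    rw [← Ideal.Quotient.eq_zero_iff_mem, map_natCast]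
    exact CharP.cast_eq_zero _ _
  have hfinpow : ∀ k : ℕ, Finite (A ⧸ m ^ k) := fun k =>
    Ideal.finite_quotient_pow (IsNoetherian.noetherian m) k
  have hHfi : (congr f m).FiniteIndex := congr_finiteIndex f m
  refine main a b hab p (congr f m) ?_
  -- the indices of the congruence subgroups are unbounded
  have hstep : ∀ k₀ : ℕ, ∃ k : ℕ, k₀ ≤ k ∧
      (congr f (m ^ k₀)).index < (congr f (m ^ k)).index := by
    intro k₀
    by_contra hcon
    push Not at hcon
    have := hfinpow k₀
    have hfi0 : (congr f (m ^ k₀)).FiniteIndex := congr_finiteIndex f (m ^ k₀)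
    have hle : ∀ k : ℕ, k₀ ≤ k → congr f (m ^ k₀) ≤ congr f (m ^ k) := by
      intro k hk
      have h1 := hcon k hk
      have h2 : congr f (m ^ k) ≤ congr f (m ^ k₀) :=
        congr_mono f (Ideal.pow_le_pow_right hk)
      have := hfinpow k
      have hfi : (congr f (m ^ k)).FiniteIndex := congr_finiteIndex f (m ^ k)
      have h3 := Subgroup.relIndex_mul_index h2
      have h4 : 0 < (congr f (m ^ k₀)).index := Nat.pos_of_ne_zero hfi0.index_ne_zero
      have h5 : (congr f (m ^ k)).relIndex (congr f (m ^ k₀)) = 1 := by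
        have h6 : (congr f (m ^ k)).relIndex (congr f (m ^ k₀)) ≤ 1 := by
          by_contra h7
          push Not at h7
          have : 2 * (congr f (m ^ k₀)).index ≤
              (congr f (m ^ k)).relIndex (congr f (m ^ k₀)) * (congr f (m ^ k₀)).index :=
            Nat.mul_le_mul_right _ h7
          omega
        have h8 : (congr f (m ^ k)).relIndex (congr f (m ^ k₀)) ≠ 0 := by
          intro h9
          rw [h9, zero_mul] at h3
          exact hfi.index_ne_zero h3.symm
        omega
      exact Subgroup.relIndex_eq_one.mp h5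
    have hker : congr f (m ^ k₀) ≤ f.ker := by
      intro g hg
      rw [MonoidHom.mem_ker]
      have hall : ∀ k : ℕ, Ent (m ^ k) (f g - 1) := by
        intro k
        rcases le_total k₀ k with h | h
        · exact (mem_congr f _ g).mp (hle k h hg)
        · exact ((mem_congr f _ g).mp hg).mono (Ideal.pow_le_pow_right h)
      have h0 : f g - 1 = 0 := by
        ext i j
        have h1 : (f g - 1) i j ∈ (⨅ k : ℕ, m ^ k) := by
          rw [Submodule.mem_iInf]
          intro k
          exact hall k i j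
        rw [Ideal.iInf_pow_eq_bot_of_isDomain m hm.ne_top] at h1
        exact h1
      exact sub_eq_zero.mp h0
    have hkfi : f.ker.FiniteIndex := Subgroup.finiteIndex_of_le hker
    apply hinf
    have hq : Finite (G ⧸ f.ker) := inferInstance
    have : Set.range f ⊆ Set.range (fun x : G ⧸ f.ker => f (Quotient.out x)) := by
      rintro _ ⟨g, rfl⟩
      refine ⟨(g : G ⧸ f.ker), ?_⟩
      have h1 : ((Quotient.out (g : G ⧸ f.ker) : G) : G ⧸ f.ker) = (g : G ⧸ f.ker) :=
        Quotient.out_eq' _
      rw [QuotientGroup.eq, MonoidHom.mem_ker, map_mul] at h1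
      show f (Quotient.out (g : G ⧸ f.ker)) = f g
      have h2 : f (Quotient.out (g : G ⧸ f.ker)) * f ((Quotient.out (g : G ⧸ f.ker))⁻¹) = 1 := by
        rw [← map_mul, mul_inv_cancel, map_one]
      calc f (Quotient.out (g : G ⧸ f.ker))
          = f (Quotient.out (g : G ⧸ f.ker)) *
              (f (Quotient.out (g : G ⧸ f.ker))⁻¹ * f g) := by rw [h1, mul_one]
        _ = f g := by rw [← mul_assoc, h2, one_mul]
    exact (Set.finite_range _).subset this
  intro M
  have hunb : ∀ M : ℕ, ∃ k : ℕ, M < (congr f (m ^ k)).index := by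
    intro M
    induction M with
    | zero =>
      obtain ⟨k, _, hk⟩ := hstep 0
      exact ⟨k, lt_of_le_of_lt (Nat.zero_le _) hk⟩
    | succ M ih =>
      obtain ⟨k₀, hk₀⟩ := ih
      obtain ⟨k, _, hk⟩ := hstep k₀
      exact ⟨k, by omega⟩
  obtain ⟨k, hk⟩ := hunb M
  have := hfinpow k
  refine ⟨congr f (m ^ k), inferInstance, congr_finiteIndex f (m ^ k), ?_, hk⟩
  intro h hh
  refine ⟨k, ?_⟩
  exact congr_mono f (Ideal.pow_le_pow_right (Nat.le_succ k)) (congr_pow f m p hpm h hh k)

end Pool.Agent.helper44.Linear
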