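import Pool.Agent.helper44.LinearRing
set_option autoImplicit false
namespace Pool.Agent.helper44.Linear
open Pool.Agent.helper44.ProP

lemma finiteIndex_congr_of_finite_range {G : Type*} [Group G] {A : Type*} [CommRing A] {n : ℕ}
    (f : G →* Matrix (Fin n) (Fin n) A) (I : Ideal A)
    (h : (Set.range (((Ideal.Quotient.mk I).mapMatrix : Matrix (Fin n) (Fin n) A →+*
    Matrix (Fin n) (Fin n) (A ⧸ I)).toMonoidHom.comp f)).Finite) : (congr f I).FiniteIndex := by
  set φ := ((Ideal.Quotient.mk I).mapMatrix : Matrix (Fin n) (Fin n) A →+*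
    Matrix (Fin n) (Fin n) (A ⧸ I)).toMonoidHom.comp f with hφ
  have h1 : (Set.range φ.toHomUnits).Finite := by
    apply Set.Finite.of_finite_image (f := Units.val)
    · refine h.subset ?_
      rintro _ ⟨_, ⟨g, rfl⟩, rfl⟩
      exact ⟨g, rfl⟩
    · exact fun x _ y _ hxy => Units.ext hxy
  have h2 : Finite φ.toHomUnits.range := h1
  have h3 : Finite (G ⧸ φ.toHomUnits.ker) :=
    Finite.of_equiv _ (QuotientGroup.quotientKerEquivRange φ.toHomUnits).symm.toEquiv
  have h4 : φ.toHomUnits.ker.FiniteIndex := Subgroup.finiteIndex_of_finite_quotient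
  exact h4

lemma finite_range_of_congr_bot {G : Type*} [Group G] {A : Type*} [CommRing A] {n : ℕ}
    (f : G →* Matrix (Fin n) (Fin n) A) (h : (congr f ⊥).FiniteIndex) :
    (Set.range f).Finite := by
  have hker : congr f ⊥ ≤ f.ker := by
    intro g hg
    rw [mem_congr] at hg
    rw [MonoidHom.mem_ker]
    have h0 : f g - 1 = 0 := by
      ext i j
      exact hg i j
    exact sub_eq_zero.mp h0
  have hkfi : f.ker.FiniteIndex := Subgroup.finiteIndex_of_le hker
  have h1 : f.toHomUnits.ker = f.ker := by
    ext g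
    rw [MonoidHom.mem_ker, MonoidHom.mem_ker, Units.ext_iff, MonoidHom.coe_toHomUnits]
    rfl
  rw [← h1] at hkfi
  have h2 : Finite f.toHomUnits.range :=
    Finite.of_equiv _ (QuotientGroup.quotientKerEquivRange f.toHomUnits).toEquiv
  have h3 : (Set.range f.toHomUnits).Finite := h2
  refine (h3.image Units.val).subset ?_
  rintro _ ⟨g, rfl⟩
  exact ⟨_, ⟨g, rfl⟩, rfl⟩

theorem fg_ring_case {G : Type*} [Group G] (a b : G)
    (hab : Subgroup.closure ({a, b} : Set G) = ⊤)
    {A : Type*} [CommRing A] [hA : Algebra.FiniteType ℤ A] {n : ℕ}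
    (f : G →* Matrix (Fin n) (Fin n) A) (hinf : (Set.range f).Infinite) :
    ∃ N : Subgroup G, N.Normal ∧ N.FiniteIndex ∧
      ∀ g ∈ N, (Subgroup.closure ({a, g⁻¹ * b * g} : Set G) : Set G).Infinite := by
  have hnoeth : IsNoetherianRing A := Algebra.FiniteType.isNoetherianRing ℤ A
  by_cases h : ∀ P ∈ minimalPrimes A, (congr f P).FiniteIndex
  · have hfin : (minimalPrimes A).Finite := minimalPrimes.finite_of_isNoetherianRing A
    have hnil : (congr f (nilradical A)).FiniteIndex := by
      have h1 : (⨅ P : minimalPrimes A, congr f P.1) ≤ congr f (nilradical A) := by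
        intro g hg
        rw [mem_congr]
        intro i j
        have h2 : nilradical A = sInf (minimalPrimes A) := by
          rw [nilradical, ← Ideal.sInf_minimalPrimes]; rfl
        rw [h2, Ideal.mem_sInf]
        intro P hP
        have h3 := (Subgroup.mem_iInf.mp hg) ⟨P, hP⟩
        rw [mem_congr] at h3
        exact h3 i j
      have : Finite (minimalPrimes A) := hfin
      have h3 : (⨅ P : minimalPrimes A, congr f P.1).FiniteIndex :=
        Subgroup.finiteIndex_iInf fun P => h P.1 P.2
      exact Subgroup.finiteIndex_of_le h1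
    obtain ⟨s, hs⟩ := IsNoetherianRing.isNilpotent_nilradical A
    by_contra hcon
    have hall : ∀ j : ℕ, (congr f (nilradical A ^ (j + 1))).FiniteIndex := by
      intro j
      induction j with
      | zero => simpa using hnil
      | succ j ih =>
        by_contra h2
        exact hcon (layer_case a b hab f (nilradical A) (j + 1) (by omega) ih h2)
    have h1 := hall s
    rw [pow_succ, hs, zero_mul] at h1
    exact hinf (finite_range_of_congr_bot f h1)
  · push Not at h
    obtain ⟨P, hP, hfi⟩ := h
    have hprime : P.IsPrime := hP.1.1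
    refine quotient_domain_case a b hab P
      (((Ideal.Quotient.mk P).mapMatrix : Matrix (Fin n) (Fin n) A →+*
        Matrix (Fin n) (Fin n) (A ⧸ P)).toMonoidHom.comp f) ?_
    intro hfin
    exact hfi (finiteIndex_congr_of_finite_range f P hfin)

/-- Two-generated groups with an infinite image in the matrices over a commutative ring. -/
theorem ring_case {G : Type*} [Group G] (a b : G)
    (hab : Subgroup.closure ({a, b} : Set G) = ⊤)
    {R : Type*} [CommRing R] {n : ℕ}
    (f : G →* Matrix (Fin n) (Fin n) R) (hinf : (Set.range f).Infinite) :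
    ∃ N : Subgroup G, N.Normal ∧ N.FiniteIndex ∧
      ∀ g ∈ N, (Subgroup.closure ({a, g⁻¹ * b * g} : Set G) : Set G).Infinite := by
  classical
  let S : Set R := ⋃ c ∈ ({a, a⁻¹, b, b⁻¹} : Set G), ⋃ i : Fin n, ⋃ j : Fin n, {f c i j}
  have hSfin : S.Finite := by
    refine Set.Finite.biUnion (by simp) fun c _ => ?_
    exact Set.finite_iUnion fun i => Set.finite_iUnion fun j => Set.finite_singleton _
  let A : Subalgebra ℤ R := Algebra.adjoin ℤ S
  have hS : ∀ c ∈ ({a, a⁻¹, b, b⁻¹} : Set G), ∀ i j, f c i j ∈ A := by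
    intro c hc i j
    apply Algebra.subset_adjoin
    simp only [S, Set.mem_iUnion, Set.mem_singleton_iff]
    exact ⟨c, hc, i, j, rfl⟩
  have hmul : ∀ M N : Matrix (Fin n) (Fin n) R, (∀ i j, M i j ∈ A) → (∀ i j, N i j ∈ A) →
      ∀ i j, (M * N) i j ∈ A := by
    intro M N hM hN i j
    rw [Matrix.mul_apply]
    exact A.sum_mem fun k _ => A.mul_mem (hM i k) (hN k j)
  have hall : ∀ g : G, (∀ i j, f g i j ∈ A) ∧ (∀ i j, f g⁻¹ i j ∈ A) := by
    intro g
    have hg : g ∈ Subgroup.closure ({a, b} : Set G) := by rw [hab]; trivial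
    induction hg using Subgroup.closure_induction with
    | mem x hx =>
      rcases hx with rfl | hx
      · exact ⟨hS _ (by simp), hS _ (by simp)⟩
      · rw [Set.mem_singleton_iff] at hx
        subst hx
        exact ⟨hS _ (by simp), hS _ (by simp)⟩
    | one =>
      have h1 : ∀ i j, f 1 i j ∈ A := by
        intro i j
        rw [map_one, Matrix.one_apply]
        split_ifs
        · exact A.one_mem
        · exact A.zero_mem
      exact ⟨h1, by simpa using h1⟩
    | mul x y _ _ hx hy =>
      refine ⟨?_, ?_⟩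
      · rw [map_mul]; exact hmul _ _ hx.1 hy.1
      · rw [mul_inv_rev, map_mul]; exact hmul _ _ hy.2 hx.2
    | inv x _ hx => exact ⟨hx.2, by simpa using hx.1⟩
  let f' : G →* Matrix (Fin n) (Fin n) A :=
    { toFun := fun g => Matrix.of fun i j => ⟨f g i j, (hall g).1 i j⟩
      map_one' := by
        ext i j
        simp only [map_one, Matrix.of_apply, Matrix.one_apply]
        split_ifs <;> rfl
      map_mul' := by
        intro x y
        ext i j
        simp [Matrix.mul_apply] }
  have hA : @Algebra.FiniteType ℤ A _ _ (Ring.toIntAlgebra A) := by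
    have h1 : Algebra.FiniteType ℤ A := by
      rw [← Subalgebra.fg_iff_finiteType]
      exact Subalgebra.fg_def.mpr ⟨S, hSfin, rfl⟩
    have h2 : (Ring.toIntAlgebra A) = (inferInstance : Algebra ℤ A) := Subsingleton.elim _ _
    rw [h2]
    exact h1
  refine fg_ring_case (hA := hA) a b hab f' ?_
  intro hfin
  apply hinf
  refine (hfin.image (fun M : Matrix (Fin n) (Fin n) A => M.map (fun x => (x : R)))).subset ?_
  rintro _ ⟨g, rfl⟩
  refine ⟨_, ⟨g, rfl⟩, ?_⟩
  ext i j
  rfl

end Pool.Agent.helper44.Linear
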