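import Pool.Agent.helper44.Linear

/-!
Two-generated groups with infinite image in the invertible matrices over a commutative ring.
-/

set_option autoImplicit false

namespace Pool.Agent.helper44.Linear

open Pool.Agent.helper44.ProP

/-- A version of `domain_case` in which the domain is a quotient of a finitely generated ring. -/
theorem quotient_domain_case {G : Type*} [Group G] (a b : G)
    (hab : Subgroup.closure ({a, b} : Set G) = ⊤)
    {A : Type*} [CommRing A] [hA : Algebra.FiniteType ℤ A] (P : Ideal A) [P.IsPrime] {n : ℕ}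
    (f : G →* Matrix (Fin n) (Fin n) (A ⧸ P)) (hinf : (Set.range f).Infinite) :
    ∃ N : Subgroup G, N.Normal ∧ N.FiniteIndex ∧
      ∀ g ∈ N, (Subgroup.closure ({a, g⁻¹ * b * g} : Set G) : Set G).Infinite := by
  have h1 : @Algebra.FiniteType ℤ (A ⧸ P) _ _ (Ring.toIntAlgebra (A ⧸ P)) :=
    @Algebra.FiniteType.of_surjective ℤ A (A ⧸ P) _ _ _ (Ring.toIntAlgebra A)
      (Ring.toIntAlgebra (A ⧸ P)) hA
      ((Ideal.Quotient.mk P).toIntAlgHom) Ideal.Quotient.mk_surjective
  exact domain_case a b hab f hinf

/-- If a finite index subgroup has a homomorphism to a commutative group with infinite range. -/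
theorem main_comm {G : Type*} [Group G] (a b : G)
    (hab : Subgroup.closure ({a, b} : Set G) = ⊤)
    (H : Subgroup G) [H.FiniteIndex] {B : Type*} [AddCommGroup B]
    (χ : H →* Multiplicative B) (hχ : (Set.range χ).Infinite) :
    ∃ N : Subgroup G, N.Normal ∧ N.FiniteIndex ∧
      ∀ g ∈ N, (Subgroup.closure ({a, g⁻¹ * b * g} : Set G) : Set G).Infinite := by
  let B' : AddSubgroup B := AddSubgroup.toSubgroup.symm χ.range
  have hB' : Infinite B' := by
    have : (B' : Set B).Infinite := hχ
    exact this.to_subtype
  let χ' : H →* Multiplicative B' :=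
    { toFun := fun h => Multiplicative.ofAdd ⟨(χ h).toAdd, ⟨h, rfl⟩⟩
      map_one' := by
        apply Multiplicative.toAdd.injective
        apply Subtype.ext
        simp
      map_mul' := by
        intro x y
        apply Multiplicative.toAdd.injective
        apply Subtype.ext
        simp }
  refine main_abelian a b hab H χ' ?_
  intro y
  obtain ⟨h, hh⟩ := y.toAdd.2
  refine ⟨h, ?_⟩
  apply Multiplicative.toAdd.injective
  apply Subtype.ext
  exact hh

/-- The layer of the congruence filtration. -/
theorem layer_case {G : Type*} [Group G] (a b : G)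
    (hab : Subgroup.closure ({a, b} : Set G) = ⊤)
    {A : Type*} [CommRing A] {n : ℕ} (f : G →* Matrix (Fin n) (Fin n) A) (I : Ideal A)
    (j : ℕ) (hj : 1 ≤ j) (h1 : (congr f (I ^ j)).FiniteIndex)
    (h2 : ¬ (congr f (I ^ (j + 1))).FiniteIndex) :
    ∃ N : Subgroup G, N.Normal ∧ N.FiniteIndex ∧
      ∀ g ∈ N, (Subgroup.closure ({a, g⁻¹ * b * g} : Set G) : Set G).Infinite := by
  let q : A →+* A ⧸ I ^ (j + 1) := Ideal.Quotient.mk _
  have hmul : ∀ x ∈ congr f (I ^ j), ∀ y ∈ congr f (I ^ j),
      (f (x * y) - 1).map q = (f x - 1).map q + (f y - 1).map q := by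
    intro x hx y hy
    rw [mem_congr] at hx hy
    have h3 : f (x * y) - 1 = (f x - 1) + (f y - 1) + (f x - 1) * (f y - 1) := by
      rw [map_mul]; noncomm_ring
    have h4 : Ent (I ^ (j + 1)) ((f x - 1) * (f y - 1)) := by
      refine (Ent.mul hx hy).mono ?_
      rw [← pow_add]
      exact Ideal.pow_le_pow_right (by omega)
    rw [h3]
    ext i k
    simp only [Matrix.map_apply, Matrix.add_apply, map_add]
    have h5 : q (((f x - 1) * (f y - 1)) i k) = 0 := Ideal.Quotient.eq_zero_iff_mem.mpr (h4 i k)
    rw [h5, add_zero]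
  let χ : congr f (I ^ j) →* Multiplicative (Matrix (Fin n) (Fin n) (A ⧸ I ^ (j + 1))) :=
    { toFun := fun h => Multiplicative.ofAdd ((f h - 1).map q)
      map_one' := by
        apply Multiplicative.toAdd.injective
        simp only [OneMemClass.coe_one, map_one, sub_self, toAdd_ofAdd, toAdd_one]
        ext i k
        simp
      map_mul' := by
        intro x y
        apply Multiplicative.toAdd.injective
        simp only [Subgroup.coe_mul, toAdd_ofAdd, toAdd_mul]
        exact hmul x.1 x.2 y.1 y.2 }
  refine main_comm a b hab (congr f (I ^ j)) χ ?_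
  intro hfin
  apply h2
  have hker : χ.ker = (congr f (I ^ (j + 1))).subgroupOf (congr f (I ^ j)) := by
    ext x
    rw [MonoidHom.mem_ker, Subgroup.mem_subgroupOf, mem_congr]
    constructor
    · intro h i k
      have h3 := congrArg Multiplicative.toAdd h
      have h4 : (f x - 1).map q = 0 := h3
      have h5 := congrFun (congrFun h4 i) k
      exact Ideal.Quotient.eq_zero_iff_mem.mp h5
    · intro h
      apply Multiplicative.toAdd.injective
      show (f x - 1).map q = 0
      ext i k
      exact Ideal.Quotient.eq_zero_iff_mem.mpr (h i k)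
  have hfr : Finite χ.range := hfin
  have hq : Finite (congr f (I ^ j) ⧸ χ.ker) :=
    Finite.of_equiv _ (QuotientGroup.quotientKerEquivRange χ).symm.toEquiv
  have hfi : χ.ker.FiniteIndex := Subgroup.finiteIndex_of_finite_quotient
  rw [hker] at hfi
  have hle : congr f (I ^ (j + 1)) ≤ congr f (I ^ j) :=
    congr_mono f (Ideal.pow_le_pow_right (Nat.le_succ j))
  refine ⟨?_⟩
  rw [← Subgroup.relIndex_mul_index hle]
  exact mul_ne_zero hfi.index_ne_zero h1.index_ne_zero

end Pool.Agent.helper44.Linear
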